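import Pool.Agent.H96.LT.Pot

set_option autoImplicit false

/-!
# The bound for `Fn` at the crossing
-/

namespace Pool.Agent.H96.LT

open Finset Pool.Agent.H95R2.Leh Pool.Agent.TH836.Leh Pool.Agent.H96.LS

theorem Fn_small : ∃ C : ℝ, 1 ≤ C ∧ ∀ (k : ℕ) (R0 : ℝ) (St : ℕ → ℕ → Prop), Fam k R0 St →
    ∀ T Q z : ℝ, 2 ≤ T → 0 < Q → Q ≤ z → 3000 ≤ z →
    Fn St T Q ≤ C * Real.sqrt z * Real.log z * Real.exp (-(Real.log (T / 2) / Real.log z)) := by
  classical
  obtain ⟨C, hC1, hC⟩ := Pool.Agent.Helper923.PPS.rankin_count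
    Pool.Agent.Helper923.HMertens.mertens_log Pool.Agent.Helper923.HMertens.mertens_ratio
  refine ⟨C, hC1, ?_⟩
  intro k R0 St hF T Q z hT hQ hQz hz
  have hT0 : 0 < T := by linarith
  have hzpos : 0 < z := by linarith
  set v : ℝ := Real.log (T / 2) with hv
  have hv0 : 0 ≤ v := Real.log_nonneg (by linarith)
  have hexpv : Real.exp v = T / 2 := Real.exp_log (by positivity)
  have hzz : 3000 ≤ ⌊z⌋₊ := Nat.le_floor (by exact_mod_cast hz)
  have hsub : DD St T Q ⊆ (Finset.Icc 1 ⌊T⌋₊).filter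
      (fun n => Real.exp v < (Pool.Agent.Helper923.PPS.sp ⌊z⌋₊ n : ℝ)) := by
    intro D hD
    obtain ⟨b1, b2, b3, q, b4, b5, b6⟩ := CB.mem_DD hD
    rw [Finset.mem_filter, Finset.mem_Icc]
    refine ⟨⟨b1, Nat.le_floor b2⟩, ?_⟩
    rw [db_sp_eq_self (by omega), hexpv]
    · exact b3
    · intro p hp hpd
      have c1 := hF.lt D q p b6 hp hpd
      have c2 : q ≤ ⌊z⌋₊ := Nat.le_floor (b5.trans hQz)
      omega
  have h3 := hC ⌊z⌋₊ ⌊T⌋₊ v hzz hv0
  have hcard := Finset.card_le_card hsub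
  have h4 : ((DD St T Q).card : ℝ) ≤ C * (⌊T⌋₊ : ℝ) * Real.log (⌊z⌋₊ : ℝ) *
      Real.exp (-v / Real.log (⌊z⌋₊ : ℝ)) := by
    have hcard2 : ((DD St T Q).card : ℝ) ≤ (((Finset.Icc 1 ⌊T⌋₊).filter
      (fun n => Real.exp v < (Pool.Agent.Helper923.PPS.sp ⌊z⌋₊ n : ℝ))).card : ℝ) := by
      exact_mod_cast hcard
    refine hcard2.trans ?_
    convert h3 using 2
  have hfl : (3000 : ℝ) ≤ (⌊z⌋₊ : ℝ) := by exact_mod_cast hzz
  have hlog0 : 0 < Real.log (⌊z⌋₊ : ℝ) := Real.log_pos (by linarith)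
  have hlog1 : Real.log (⌊z⌋₊ : ℝ) ≤ Real.log z :=
    Real.log_le_log (by linarith) (Nat.floor_le hzpos.le)
  have hTf : (⌊T⌋₊ : ℝ) ≤ T := Nat.floor_le hT0.le
  have hexp : Real.exp (-v / Real.log (⌊z⌋₊ : ℝ)) ≤ Real.exp (-(v / Real.log z)) := by
    apply Real.exp_le_exp.mpr
    rw [neg_div, neg_le_neg_iff]
    exact div_le_div_of_nonneg_left hv0 hlog0 hlog1
  have hC0 : 0 ≤ C := by linarith
  have hlz : 0 ≤ Real.log z := hlog0.le.trans hlog1
  have h5 : ((DD St T Q).card : ℝ) ≤ C * T * Real.log z * Real.exp (-(v / Real.log z)) := by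
    refine h4.trans ?_
    apply mul_le_mul _ hexp (Real.exp_pos _).le (by positivity)
    apply mul_le_mul _ hlog1 hlog0.le (by positivity)
    exact mul_le_mul_of_nonneg_left hTf hC0
  have hsz : Real.sqrt Q ≤ Real.sqrt z := Real.sqrt_le_sqrt hQz
  unfold Fn
  rw [div_le_iff₀ hT0]
  calc ((DD St T Q).card : ℝ) * Real.sqrt Q ≤
      (C * T * Real.log z * Real.exp (-(v / Real.log z))) * Real.sqrt z :=
        mul_le_mul h5 hsz (Real.sqrt_nonneg _) (by positivity)
    _ = _ := by ring

theorem Fn_bound (h : ℝ) (hh0 : 0 < h) (hh1 : h ≤ 1 / 100) : ∃ L0 : ℝ, 1 ≤ L0 ∧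
    ∀ L : ℝ, L0 ≤ L → ∀ (k : ℕ) (R R0 W : ℝ) (St : ℕ → ℕ → Prop), Fam2 k R R0 W St →
    R ≤ Real.exp ((1 - 18 * h) * L) → R0 ≤ Real.exp (2 * L) →
    2 * W ≤ Real.exp (Real.exp ((1 - h) * L)) →
    ∀ y T Q : ℝ, 0 < y → Real.log y = Real.exp L → 0 < T → 0 < Q →
    y ≤ T ^ 2 * Q → Q ≤ 32 * R0 * T → Q ≤ 512 * R0 ^ 2 * y →
    Fn St T Q ≤ Real.exp (-(h ^ 2 * L ^ 2)) := by
  obtain ⟨b1, b2, b3, b4, b5⟩ := bb_facts
  obtain ⟨L1, hL1, hpot⟩ := pot4 h hh0 hh1
  obtain ⟨Cs, hCs, hsmooth⟩ := Fn_smooth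
  obtain ⟨Cm, hCm, hsmall⟩ := Fn_small
  have hh2 : 0 < h ^ 2 := by positivity
  obtain ⟨La, hLa, ha⟩ := ev_polyd (1 / 20) (3000 * Cs) (by norm_num) 0
  obtain ⟨Lb, hLb, hb⟩ := ev_polyd h 40 hh0 2
  obtain ⟨Lc, hLc, hc⟩ := ev_polyd (1 / 20) (3 * Cm) (by norm_num) 1
  obtain ⟨Ld, hLd, hd⟩ := ev_polyd 1 100 (by norm_num) 3
  obtain ⟨Le, hLe, he⟩ := ev_polyd (h ^ 2 / 10) 1 (by positivity) 1
  obtain ⟨Lf, hLf, hf⟩ := ev_polyd (9 / 10) (1200 / h) (by norm_num) 2
  refine ⟨max (max L1 La) (max (max Lb Lc) (max Ld (max Le (max Lf (max 1000000 (8 / h ^ 2)))))),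
    le_trans hL1 (le_trans (le_max_left _ _) (le_max_left _ _)), ?_⟩
  intro L hL k R R0 W St hF hRL hR0L hWL y T Q hy hly hT hQ h1 h2 h3
  simp only [max_le_iff] at hL
  obtain ⟨⟨hLL1, hLLa⟩, ⟨hLLb, hLLc⟩, hLLd, hLLe, hLLf, hLbig, hL8⟩ := hL
  replace ha := ha L hLLa
  replace hb := hb L hLLb
  replace hc := hc L hLLc
  replace hd := hd L hLLd
  replace he := he L hLLe
  replace hf := hf L hLLf
  rw [pow_zero, mul_one] at ha
  rw [pow_one] at hc he
  rw [one_mul] at hd he
  have hLpos : 0 < L := by linarith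
  have hhL : h * L ≤ 1 / 100 * L := mul_le_mul_of_nonneg_right hh1 hLpos.le
  have hhL0 : 0 < h * L := by positivity
  have hR := hF.one
  have hRR := hF.le
  have hWW := hF.large
  have hR0 : 1 ≤ R0 := by linarith
  set E := Real.exp L with hE
  set E99 := Real.exp ((1 - h) * L) with hE99
  have hE1 : E = E99 * Real.exp (h * L) := by
    rw [hE, hE99, ← Real.exp_add]; congr 1; ring
  have hE990 : 0 < E99 := Real.exp_pos _
  have hLL : 1000000 * L ≤ L ^ 2 := by rw [pow_two]; exact mul_le_mul_of_nonneg_right hLbig hLpos.le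
  have hexp100' : 40000000 ≤ Real.exp (h * L) := by linarith
  have hEbig : 100 * L ^ 3 ≤ E := hd
  have hEL : 100000000 * L ≤ E := by
    have h4 : L ^ 3 = L ^ 2 * L := by ring
    have h5 : (1000000 * L) * 1 ≤ L ^ 2 * L := mul_le_mul hLL (by linarith) (by norm_num) (by positivity)
    linarith
  have hE99f : 1200 * L ^ 2 ≤ h * E99 := by
    have h6 : 1200 / h * L ^ 2 ≤ E99 := by
      refine hf.trans (Real.exp_le_exp.mpr ?_)
      linarith
    have h7 : h * (1200 / h * L ^ 2) ≤ h * E99 := mul_le_mul_of_nonneg_left h6 hh0.le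
    have h8 : h * (1200 / h * L ^ 2) = 1200 * L ^ 2 := by field_simp
    linarith
  have hhE : h * E99 ≤ 1 / 100 * E99 := mul_le_mul_of_nonneg_right hh1 hE990.le
  have h9 : E99 * 40000000 ≤ E := by
    rw [hE1]; exact mul_le_mul_of_nonneg_left hexp100' hE990.le
  set p := Real.log Q with hp
  set Y := Real.log T with hY
  have hlR0 : Real.log R0 ≤ 2 * L := by
    rw [Real.log_le_iff_le_exp (by linarith)]; exact hR0L
  have hlR00 : 0 ≤ Real.log R0 := Real.log_nonneg hR0
  -- the relations in logarithmic form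
  have g1 : E ≤ 2 * Y + p := by
    have h4 := Real.log_le_log hy h1
    rw [hly, Real.log_mul (by positivity) hQ.ne', Real.log_pow] at h4
    push_cast at h4
    exact h4
  have hl32 : Real.log 32 ≤ 4 := by
    rw [Real.log_le_iff_le_exp (by norm_num)]
    have h7 : Real.exp 4 = Real.exp 1 ^ 4 := by rw [← Real.exp_nat_mul]; norm_num
    rw [h7]
    have h8 := Real.exp_one_gt_d9
    have h9 : (2.7 : ℝ) ^ 4 ≤ Real.exp 1 ^ 4 := pow_le_pow_left₀ (by norm_num) (by linarith) 4
    norm_num at h9 ⊢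
    linarith
  have hl512 : Real.log 512 ≤ 7 := by
    rw [Real.log_le_iff_le_exp (by norm_num)]
    have h7 : Real.exp 7 = Real.exp 1 ^ 7 := by rw [← Real.exp_nat_mul]; norm_num
    rw [h7]
    have h8 := Real.exp_one_gt_d9
    have h9 : (2.7 : ℝ) ^ 7 ≤ Real.exp 1 ^ 7 := pow_le_pow_left₀ (by norm_num) (by linarith) 7
    norm_num at h9 ⊢
    linarith
  have g2 : p ≤ 4 + 2 * L + Y := by
    have h4 := Real.log_le_log hQ h2
    rw [Real.log_mul (by positivity) hT.ne', Real.log_mul (by norm_num) (by linarith)] at h4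
    linarith
  have g3 : p ≤ 7 + 4 * L + E := by
    have h4 := Real.log_le_log hQ h3
    rw [Real.log_mul (by positivity) hy.ne', Real.log_mul (by norm_num) (by positivity),
      Real.log_pow, hly] at h4
    push_cast at h4
    linarith
  rcases le_or_gt (Real.exp E99) Q with hcase | hcase
  · -- large `Q`
    have hpE : E99 ≤ p := by
      rw [hp, Real.le_log_iff_exp_le hQ]; exact hcase
    have hp0 : 0 < p := by linarith
    have hpu : p ≤ 2 * E := by linarith
    have hhp : h * E99 ≤ h * p := mul_le_mul_of_nonneg_left hpE hh0.le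
    have hhp1 : h * p ≤ 1 / 100 * p := mul_le_mul_of_nonneg_right hh1 hp0.le
    have hYp : (1 - h) * p ≤ Y := by linarith
    obtain ⟨n, hn⟩ := pow_unbounded_of_one_lt T (show (1 : ℝ) < 2 by norm_num)
    have h4 := hpot L hLL1 k R R0 W St hF hRL hR0L hWL n T Q hT hn.le hcase hpu hYp
    refine h4.trans ?_
    unfold Bd4
    apply Real.exp_le_exp.mpr
    have hlp : Real.log p ≤ L + 1 := by
      have h5 := Real.log_le_log hp0 hpu
      rw [Real.log_mul (by norm_num) (Real.exp_pos _).ne', Real.log_exp] at h5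
      linarith [Real.log_two_lt_d9]
    have hlow : E / 20 ≤ Y - 1 / 2 * p := by linarith
    have hlogl : L - 3 ≤ Real.log (Y - 1 / 2 * p) := by
      have hE0 : 0 < E := Real.exp_pos _
      rw [Real.le_log_iff_exp_le (by linarith)]
      refine le_trans ?_ hlow
      have h5 : Real.exp (L - 3) = E * Real.exp (-3) := by
        rw [hE, ← Real.exp_add]; ring_nf
      have h6 : Real.exp (-3) ≤ 1 / 20 := by
        rw [Real.exp_neg, inv_le_comm₀ (Real.exp_pos _) (by norm_num)]
        have h5 : Real.exp 3 = Real.exp 1 ^ 3 := by rw [← Real.exp_nat_mul]; norm_num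
        rw [h5]
        have h6 := Real.exp_one_gt_d9
        have h7 : (2.718 : ℝ) ^ 3 ≤ Real.exp 1 ^ 3 :=
          pow_le_pow_left₀ (by norm_num) (by linarith) 3
        norm_num at h7 ⊢
        linarith
      rw [h5]
      have h7 : E * Real.exp (-3) ≤ E * (1 / 20) := mul_le_mul_of_nonneg_left h6 hE0.le
      linarith
    have hlogL : Real.log L ≤ h ^ 2 / 10 * L := by
      rw [Real.log_le_iff_le_exp hLpos]
      exact he
    have hlogL0 : 0 ≤ Real.log L := Real.log_nonneg (by linarith)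
    have h5 : (bb - 2 * h) * L * (Real.log p - (1 - h) * L) ≤
        (bb - 2 * h) * L * (L + 1 - (1 - h) * L) :=
      mul_le_mul_of_nonneg_left (by linarith) (mul_nonneg (by linarith) hLpos.le)
    have h6 : bb * L * (5 * Real.log L + (1 - h) * L - Real.log (Y - 1 / 2 * p)) ≤
        bb * L * (5 * Real.log L + (1 - h) * L - (L - 3)) :=
      mul_le_mul_of_nonneg_left (by linarith) (mul_nonneg (by linarith) hLpos.le)
    have h7 : (bb - 2 * h) * L * (L + 1 - (1 - h) * L) +
        bb * L * (5 * Real.log L + (1 - h) * L - (L - 3)) =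
        -(2 * (h ^ 2 * L ^ 2)) - 2 * h * L + bb * L * (4 + 5 * Real.log L) := by ring
    have h8 : bb * L * (4 + 5 * Real.log L) ≤ 1 / 2 * L * (4 + 5 * (h ^ 2 / 10 * L)) := by
      apply mul_le_mul _ (by linarith) (by linarith) (by positivity)
      exact mul_le_mul_of_nonneg_right b2 hLpos.le
    have h10 : 1 / 2 * L * (4 + 5 * (h ^ 2 / 10 * L)) = 2 * L + 1 / 4 * (h ^ 2 * L ^ 2) := by ring
    have h11 : 2 * L ≤ 1 / 4 * (h ^ 2 * L ^ 2) := by
      have h12 : h ^ 2 * (8 / h ^ 2) ≤ h ^ 2 * L := mul_le_mul_of_nonneg_left hL8 hh2.le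
      have h13 : h ^ 2 * (8 / h ^ 2) = 8 := by field_simp
      have h14 : 8 * L ≤ (h ^ 2 * L) * L := mul_le_mul_of_nonneg_right (by linarith) hLpos.le
      have h15 : (h ^ 2 * L) * L = h ^ 2 * L ^ 2 := by ring
      linarith
    have h12 : 0 ≤ h ^ 2 * L ^ 2 := by positivity
    linarith
  · have hpE : p ≤ E99 := by
      have h4 := Real.log_le_log hQ hcase.le
      rwa [Real.log_exp] at h4
    have hY4 : E / 4 + 1 ≤ Y := by linarith
    have hL2 : 0 ≤ L ^ 2 := by positivity
    have hh2L : h ^ 2 * L ^ 2 ≤ L ^ 2 := by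
      have : h ^ 2 ≤ 1 := pow_le_one₀ hh0.le (by linarith)
      calc h ^ 2 * L ^ 2 ≤ 1 * L ^ 2 := mul_le_mul_of_nonneg_right this hL2
        _ = L ^ 2 := one_mul _
    rcases le_or_gt (3000 * Cs * R0) Q with hcase2 | hcase2
    · -- smooth case
      have hCR : 1 ≤ Cs * R0 := one_le_mul_of_one_le_of_one_le hCs hR0
      have hp1 : 1 ≤ p := by
        have h4 : Real.exp 1 ≤ Q := by
          have := Real.exp_one_lt_d9
          linarith
        rw [hp, Real.le_log_iff_exp_le hQ]; exact h4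
      have h4 := hsmooth k R0 St hF.fam T Q hT (by linarith)
      refine h4.trans ?_
      have hR2 : R0 ^ 2 ≤ Real.exp (4 * L) := by
        have h := pow_le_pow_left₀ (by linarith) hR0L 2
        rw [← Real.exp_nat_mul] at h
        refine h.trans (le_of_eq ?_)
        congr 1; push_cast; ring
      have hCs1 : Cs ≤ Real.exp (1 / 20 * L) := by linarith
      have h5 : Cs * R0 ^ 2 * p ≤ Real.exp (6 * L) := by
        calc Cs * R0 ^ 2 * p ≤ Real.exp (1 / 20 * L) * Real.exp (4 * L) *
              Real.exp ((1 - h) * L) := by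
              apply mul_le_mul _ hpE (by linarith) (by positivity)
              exact mul_le_mul hCs1 hR2 (by positivity) (Real.exp_pos _).le
          _ = Real.exp (1 / 20 * L + 4 * L + (1 - h) * L) := by
              rw [← Real.exp_add, ← Real.exp_add]
          _ ≤ _ := Real.exp_le_exp.mpr (by linarith)
      have h6 : 6 * L + L ^ 2 ≤ Y / p := by
        rw [le_div_iff₀ (by linarith)]
        have h7 : (6 * L + L ^ 2) * p ≤ (6 * L + L ^ 2) * E99 :=
          mul_le_mul_of_nonneg_left hpE (by positivity)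
        have h8 : (6 * L + L ^ 2) * E99 ≤ (Real.exp (h * L) / 4) * E99 := by
          apply mul_le_mul_of_nonneg_right _ hE990.le
          linarith
        have h9 : (Real.exp (h * L) / 4) * E99 = E / 4 := by rw [hE1]; ring
        linarith
      calc Cs * R0 ^ 2 * p * Real.exp (-(Y / p)) ≤ Real.exp (6 * L) * Real.exp (-(Y / p)) :=
            mul_le_mul_of_nonneg_right h5 (Real.exp_pos _).le
        _ = Real.exp (6 * L - Y / p) := by rw [← Real.exp_add]; congr 1
        _ ≤ _ := by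
            apply Real.exp_le_exp.mpr
            linarith
    · -- very small `Q`
      set z := 3000 * Cs * R0 with hz
      have hz3000 : 3000 ≤ z := by
        have hCR : 1 ≤ Cs * R0 := one_le_mul_of_one_le_of_one_le hCs hR0
        rw [hz]; linarith
      have hz0 : 0 < z := by linarith
      have hzu : z ≤ Real.exp (21 / 10 * L) := by
        calc z ≤ Real.exp (1 / 20 * L) * Real.exp (2 * L) :=
              mul_le_mul ha hR0L (by linarith) (Real.exp_pos _).le
          _ = Real.exp (41 / 20 * L) := by rw [← Real.exp_add]; congr 1; ring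
          _ ≤ _ := Real.exp_le_exp.mpr (by linarith)
      have hlz : Real.log z ≤ 21 / 10 * L := by
        rw [Real.log_le_iff_le_exp hz0]; exact hzu
      have hlz1 : 1 ≤ Real.log z := by
        rw [Real.le_log_iff_exp_le hz0]
        have := Real.exp_one_lt_d9
        linarith
      have hT2 : 2 ≤ T := by
        have h4 : Real.log 2 ≤ Real.log T := by
          have := Real.log_two_lt_d9
          linarith
        exact (Real.log_le_log_iff (by norm_num) hT).mp h4
      have h4 := hsmall k R0 St hF.fam T Q z hT2 hQ hcase2.le hz3000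
      refine h4.trans ?_
      have hsz : Real.sqrt z ≤ Real.exp (21 / 20 * L) := by
        apply Real.sqrt_le_iff.mpr
        refine ⟨(Real.exp_pos _).le, ?_⟩
        rw [← Real.exp_nat_mul]
        refine hzu.trans (le_of_eq ?_)
        congr 1; push_cast; ring
      have hlT : E / 4 ≤ Real.log (T / 2) := by
        rw [Real.log_div hT.ne' (by norm_num)]
        have := Real.log_two_lt_d9
        linarith
      have h5 : Cm * Real.sqrt z * Real.log z ≤ Real.exp (2 * L) := by
        calc Cm * Real.sqrt z * Real.log z ≤ Cm * Real.exp (21 / 20 * L) * (21 / 10 * L) := by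
              apply mul_le_mul _ hlz (by linarith) (by positivity)
              exact mul_le_mul_of_nonneg_left hsz (by linarith)
          _ = (21 / 10 * Cm * L) * Real.exp (21 / 20 * L) := by ring
          _ ≤ Real.exp (1 / 20 * L) * Real.exp (21 / 20 * L) := by
              apply mul_le_mul_of_nonneg_right _ (Real.exp_pos _).le
              have : 0 ≤ Cm * L := by positivity
              linarith
          _ = Real.exp (22 / 20 * L) := by rw [← Real.exp_add]; congr 1; ring
          _ ≤ _ := Real.exp_le_exp.mpr (by linarith)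
      have h6 : 2 * L + L ^ 2 ≤ Real.log (T / 2) / Real.log z := by
        rw [le_div_iff₀ (by linarith)]
        have h7 : (2 * L + L ^ 2) * Real.log z ≤ (2 * L + L ^ 2) * (21 / 10 * L) :=
          mul_le_mul_of_nonneg_left hlz (by positivity)
        have h8 : (2 * L + L ^ 2) * (21 / 10 * L) = 42 / 10 * L ^ 2 + 21 / 10 * L ^ 3 := by ring
        have h9 : L ^ 2 ≤ L ^ 3 := pow_le_pow_right₀ (by linarith) (by norm_num)
        linarith
      calc Cm * Real.sqrt z * Real.log z * Real.exp (-(Real.log (T / 2) / Real.log z)) ≤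
            Real.exp (2 * L) * Real.exp (-(Real.log (T / 2) / Real.log z)) :=
            mul_le_mul_of_nonneg_right h5 (Real.exp_pos _).le
        _ = Real.exp (2 * L - Real.log (T / 2) / Real.log z) := by rw [← Real.exp_add]; congr 1
        _ ≤ _ := by
            apply Real.exp_le_exp.mpr
            linarith

end Pool.Agent.H96.LT
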