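import Pool.Agent.H96.LS.Cnt
import Pool.Agent.H96.LT.Bnd

set_option autoImplicit false

/-!
# Lehmer numbers in short intervals: the count
-/

namespace Pool.Agent.H96.LT

open Finset Pool.Agent.H95R2.Leh Pool.Agent.TH836.Leh Pool.Agent.H96.LS

theorem dyad (m : ℕ) (hm : 1 ≤ m) : (2 : ℝ) ^ (Nat.clog 2 m) / 2 < m ∧
    (m : ℝ) ≤ 2 ^ (Nat.clog 2 m) := by
  constructor
  · rcases hm.eq_or_lt with h | h
    · rw [← h]; norm_num
    · have h1 := Nat.pow_pred_clog_lt_self (b := 2) (by norm_num) h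
      have h2 : 0 < Nat.clog 2 m := Nat.clog_pos (by norm_num) h
      have h3 : (2 : ℝ) ^ (Nat.clog 2 m) / 2 = 2 ^ (Nat.clog 2 m).pred := by
        obtain ⟨c, hc⟩ : ∃ c, Nat.clog 2 m = c + 1 := ⟨_, (Nat.succ_pred_eq_of_pos h2).symm⟩
        rw [hc, pow_succ, Nat.pred_succ]
        ring
      rw [h3]
      exact_mod_cast h1
  · exact_mod_cast Nat.le_pow_clog (by norm_num) m

open Classical in
/-- the count for `x ≥ y`, `y` large -/
theorem far_case (h : ℝ) (hh0 : 0 < h) (hh1 : h ≤ 1 / 100) :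
    ∃ Y0 : ℝ, 16 ≤ Y0 ∧ ∀ x y : ℕ, Y0 ≤ y → y ≤ x →
    Real.log (x + y) ≤ (Real.log y) ^ (2 - 20 * h : ℝ) →
    (((Finset.Ioc x (x + y)).filter Leh).card : ℝ) ≤
      Real.sqrt y * Real.exp (-(h ^ 2 / 2 * (Real.log (Real.log y)) ^ 2)) := by
  obtain ⟨L1, hL1, hbound⟩ := LT.Fn_bound h hh0 hh1
  obtain ⟨La, hLa, ha⟩ := ev_polyd (1 / 1000) 1000 (by norm_num) 0
  obtain ⟨Lb, hLb, hb⟩ := ev_polyd (1 / 100) 100 (by norm_num) 1
  obtain ⟨Lc, hLc, hc⟩ := ev_polyd h 2 hh0 0
  have hh2 : 0 < h ^ 2 := by positivity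
  set L0 := max (max L1 La) (max (max Lb Lc) (max 1000000 (14 / h ^ 2))) with hL0
  refine ⟨max 16 (Real.exp (Real.exp L0)), le_max_left _ _, ?_⟩
  intro x y hy hyx hlog
  simp only [max_le_iff] at hy
  obtain ⟨hy16, hyL⟩ := hy
  have hy0 : (0 : ℝ) < y := by linarith
  have hly : Real.exp L0 ≤ Real.log y := by
    have := Real.log_le_log (Real.exp_pos _) hyL
    rwa [Real.log_exp] at this
  have hly0 : 0 < Real.log y := lt_of_lt_of_le (Real.exp_pos _) hly
  set L := Real.log (Real.log y) with hL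
  have hLL0 : L0 ≤ L := by
    have := Real.log_le_log (Real.exp_pos _) hly
    rwa [Real.log_exp] at this
  have hexpL : Real.log y = Real.exp L := (Real.exp_log hly0).symm
  rw [hL0] at hLL0
  simp only [max_le_iff] at hLL0
  obtain ⟨⟨hLL1, hLLa⟩, ⟨hLLb, hLLc⟩, hLbig, hL14⟩ := hLL0
  replace ha := ha L hLLa
  replace hb := hb L hLLb
  replace hc := hc L hLLc
  rw [pow_zero, mul_one] at ha hc
  rw [pow_one] at hb
  have hLpos : 0 < L := by linarith
  set E := Real.exp L with hE
  have hE0 : 0 < E := Real.exp_pos _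
  have hhL : h * L ≤ 1 / 100 * L := mul_le_mul_of_nonneg_right hh1 hLpos.le
  have hhL0 : 0 < h * L := by positivity
  have hlogN : Real.log ((x + y : ℕ) : ℝ) ≤ Real.exp ((2 - 20 * h) * L) := by
    push_cast
    refine hlog.trans (le_of_eq ?_)
    rw [hexpL, ← Real.exp_mul]
    congr 1; ring
  -- the parameters
  set R0 := 2 * Real.exp ((2 - 20 * h) * L) with hR0def
  set R := 2 * Real.exp ((1 - 19 * h) * L) with hRdef
  set W := Real.exp (Real.exp ((1 - h) * L)) / 2 with hWdef
  have h1000 : (1000 : ℝ) ≤ Real.exp (1 / 1000 * L) := ha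
  have hmonoE : ∀ a b : ℝ, a ≤ b → Real.exp (a * L) ≤ Real.exp (b * L) := by
    intro a b hab
    apply Real.exp_le_exp.mpr
    exact mul_le_mul_of_nonneg_right hab hLpos.le
  have hR1 : 1 ≤ R := by
    have : (1 : ℝ) ≤ Real.exp ((1 - 19 * h) * L) :=
      Real.one_le_exp (mul_nonneg (by linarith) hLpos.le)
    rw [hRdef]; linarith
  have hRR : R ≤ R0 := by
    rw [hRdef, hR0def]
    have := hmonoE (1 - 19 * h) (2 - 20 * h) (by linarith)
    linarith
  have hR01 : 1 ≤ R0 := by linarith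
  have hRu : R ≤ Real.exp ((1 - 18 * h) * L) := by
    rw [hRdef]
    have e1 : Real.exp ((1 - 18 * h) * L) = Real.exp (h * L) * Real.exp ((1 - 19 * h) * L) := by
      rw [← Real.exp_add]; congr 1; ring
    rw [e1]
    exact mul_le_mul_of_nonneg_right hc (Real.exp_pos _).le
  have hR0u : R0 ≤ Real.exp (2 * L) := by
    rw [hR0def]
    have e1 : Real.exp (2 * L) = Real.exp (20 * (h * L)) * Real.exp ((2 - 20 * h) * L) := by
      rw [← Real.exp_add]; congr 1; ring
    rw [e1]
    apply mul_le_mul_of_nonneg_right _ (Real.exp_pos _).le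
    exact hc.trans (Real.exp_le_exp.mpr (by linarith))
  have hWu : 2 * W ≤ Real.exp (Real.exp ((1 - h) * L)) := by
    rw [hWdef]; linarith
  have h99 : Real.exp (99 / 100 * L) ≤ Real.exp ((1 - h) * L) := hmonoE _ _ (by linarith)
  have hWl : 128 * R0 ≤ W := by
    rw [hWdef, le_div_iff₀ (by norm_num)]
    set t := Real.exp ((1 - h) * L) with ht
    have ht0 : 0 < t := Real.exp_pos _
    have e0 : t ^ 4 / 64 ≤ Real.exp t := by
      have h1 := Real.quadratic_le_exp_of_nonneg (show 0 ≤ t / 2 by positivity)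
      have h2 : ((t / 2) ^ 2 / 2) ^ 2 ≤ Real.exp (t / 2) ^ 2 :=
        pow_le_pow_left₀ (by positivity) (by linarith) 2
      have h3 : Real.exp (t / 2) ^ 2 = Real.exp t := by
        rw [← Real.exp_nat_mul]; congr 1; push_cast; ring
      rw [h3] at h2
      refine le_trans (le_of_eq ?_) h2
      ring
    have e1 : Real.exp (396 / 100 * L) ≤ t ^ 4 := by
      have h1 := pow_le_pow_left₀ (Real.exp_pos _).le h99 4
      rw [← Real.exp_nat_mul] at h1
      refine le_trans (le_of_eq ?_) h1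
      congr 1; push_cast; ring
    have e2 : 1000 * (1000 * Real.exp (2 * L)) ≤ Real.exp (396 / 100 * L) := by
      have h1 : Real.exp (2 * L + 1 / 1000 * L + 1 / 1000 * L) =
          Real.exp (1 / 1000 * L) * (Real.exp (1 / 1000 * L) * Real.exp (2 * L)) := by
        rw [← Real.exp_add, ← Real.exp_add]; congr 1; ring
      have h2 : Real.exp (2 * L + 1 / 1000 * L + 1 / 1000 * L) ≤ Real.exp (396 / 100 * L) :=
        Real.exp_le_exp.mpr (by linarith)
      have h3 : 1000 * (1000 * Real.exp (2 * L)) ≤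
          Real.exp (1 / 1000 * L) * (Real.exp (1 / 1000 * L) * Real.exp (2 * L)) := by
        apply mul_le_mul h1000 _ (by positivity) (Real.exp_pos _).le
        exact mul_le_mul_of_nonneg_right h1000 (Real.exp_pos _).le
      linarith
    linarith
  have hl2 : 1 / 2 ≤ Real.log 2 := by linarith [Real.log_two_gt_d9]
  have hNR0 : Real.log ((x + y : ℕ) : ℝ) ≤ R0 * Real.log 2 := by
    refine hlogN.trans ?_
    rw [hR0def]
    have e1 := Real.exp_pos ((2 - 20 * h) * L)
    nlinarith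
  have hlW : Real.exp ((1 - h) * L) / 2 ≤ Real.log W := by
    rw [hWdef, Real.log_div (Real.exp_pos _).ne' (by norm_num), Real.log_exp]
    have e1 := hmonoE (1 / 1000) (1 - h) (by linarith)
    linarith [Real.log_two_lt_d9]
  have hNW : Real.log ((x + y : ℕ) : ℝ) ≤ R * Real.log W := by
    refine hlogN.trans ?_
    have e1 : Real.exp ((2 - 20 * h) * L) = R * (Real.exp ((1 - h) * L) / 2) := by
      rw [hRdef]
      have : Real.exp ((2 - 20 * h) * L) =
          Real.exp ((1 - 19 * h) * L) * Real.exp ((1 - h) * L) := by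
        rw [← Real.exp_add]; congr 1; ring
      rw [this]; ring
    rw [e1]
    exact mul_le_mul_of_nonneg_left hlW (by linarith)
  have hfam : ∀ k : ℕ, 1 ≤ k → Fam2 k R R0 W (StI (x + y) k) := fun k hk =>
    fam2_StI hk hR1 hRR hWl hNR0 hNW
  -- sizes
  have hl512 : Real.log 512 ≤ 7 := by
    rw [Real.log_le_iff_le_exp (by norm_num)]
    have h7 : Real.exp 7 = Real.exp 1 ^ 7 := by rw [← Real.exp_nat_mul]; norm_num
    rw [h7]
    have h8 := Real.exp_one_gt_d9
    have h9 : (2.7 : ℝ) ^ 7 ≤ Real.exp 1 ^ 7 := pow_le_pow_left₀ (by norm_num) (by linarith) 7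
    norm_num at h9 ⊢
    linarith
  have hlR0 : Real.log R0 ≤ 2 * L := by
    rw [Real.log_le_iff_le_exp (by linarith)]; exact hR0u
  have hEL : 100 * L ≤ Real.exp (1 / 100 * L) := hb
  have hEE : Real.exp (1 / 100 * L) ≤ E / 100 := by
    have e1 : E = Real.exp (1 / 1000 * L) * Real.exp (999 / 1000 * L) := by
      rw [hE, ← Real.exp_add]; congr 1; ring
    have e2 := hmonoE (1 / 100) (999 / 1000) (by norm_num)
    rw [e1]
    have e3 : 1000 * Real.exp (999 / 1000 * L) ≤
        Real.exp (1 / 1000 * L) * Real.exp (999 / 1000 * L) :=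
      mul_le_mul_of_nonneg_right h1000 (Real.exp_pos _).le
    have e4 := Real.exp_pos (999 / 1000 * L)
    linarith
  set A := ⌊2 * E⌋₊ + 1 with hA
  have hAb : ∀ m : ℕ, 1 ≤ m → (m : ℝ) ≤ 256 * R0 ^ 2 * y → Nat.clog 2 m < A := by
    intro m hm hmu
    have h1 := (dyad m hm).1
    have h2 : (2 : ℝ) ^ (Nat.clog 2 m) ≤ 512 * R0 ^ 2 * y := by linarith
    have h3 := Real.log_le_log (by positivity) h2
    rw [Real.log_pow, Real.log_mul (by positivity) hy0.ne', Real.log_mul (by norm_num)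
      (by positivity), Real.log_pow, hexpL] at h3
    push_cast at h3
    have h4 : (Nat.clog 2 m : ℝ) * (2 / 3) ≤ (Nat.clog 2 m : ℝ) * Real.log 2 :=
      mul_le_mul_of_nonneg_left (by linarith [Real.log_two_gt_d9]) (Nat.cast_nonneg _)
    have h5 : (Nat.clog 2 m : ℝ) ≤ 2 * E := by linarith
    have h6 : Nat.clog 2 m ≤ ⌊2 * E⌋₊ := Nat.le_floor h5
    omega
  set K := ⌊R0⌋₊ + 1 with hK
  -- the covering
  have hcover : (Finset.Ioc x (x + y)).filter Leh ⊆
      (Finset.Icc 2 K).biUnion (fun k => (Finset.range A).biUnion (fun a =>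
        (Finset.range A).biUnion (fun b => Sc x y k (2 ^ a) (2 ^ b)))) := by
    intro n hn
    rw [Finset.mem_filter, Finset.mem_Ioc] at hn
    obtain ⟨⟨hn1, hn2⟩, hl⟩ := hn
    obtain ⟨k, hk2, hkn, hkw⟩ := leh_k hl
    have hF := hfam k (by omega)
    have hyR : 16 * R0 < (y : ℝ) := by
      have e1 : Real.log (16 * R0) < Real.log y := by
        rw [Real.log_mul (by norm_num) (by linarith), hexpL]
        have : Real.log 16 ≤ 7 := le_trans (Real.log_le_log (by norm_num) (by norm_num)) hl512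
        linarith
      exact (Real.log_lt_log_iff (by linarith) hy0).mp e1
    obtain ⟨q, hqp, hqn, hc1, hc2⟩ := cross hF.fam hl hn2 hkn (by omega) hyR
    have hD1 : 1 ≤ seg n q := Nat.pos_of_dvd_of_pos (seg_dvd n q) (by omega)
    have hst : StI (x + y) k (seg n q) q := ⟨n, hl, hn2, hkn, hqp, hqn, rfl⟩
    have hkey := DenseA.key hF.fam hst
    have hq0 : (0 : ℝ) < q := by exact_mod_cast hqp.pos
    have hc2' : (seg n q : ℝ) ^ 2 < y * q := by exact_mod_cast hc2
    have hqu : (q : ℝ) ≤ 256 * R0 ^ 2 * y := by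
      have e1 : (q : ℝ) * q ≤ (256 * R0 ^ 2 * y) * q := by
        calc (q : ℝ) * q ≤ (16 * R0 * (seg n q : ℝ)) * (16 * R0 * (seg n q : ℝ)) :=
              mul_le_mul hkey hkey hq0.le (by positivity)
          _ = 256 * R0 ^ 2 * (seg n q : ℝ) ^ 2 := by ring
          _ ≤ 256 * R0 ^ 2 * (y * q) := mul_le_mul_of_nonneg_left hc2'.le (by positivity)
          _ = _ := by ring
      exact le_of_mul_le_mul_right e1 hq0
    have hDu : (seg n q : ℝ) ≤ 256 * R0 ^ 2 * y := by
      have e1 : (seg n q : ℝ) ^ 2 ≤ (256 * R0 ^ 2 * y) ^ 2 := by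
        calc (seg n q : ℝ) ^ 2 ≤ y * q := hc2'.le
          _ ≤ y * (256 * R0 ^ 2 * y) := mul_le_mul_of_nonneg_left hqu hy0.le
          _ = 1 * (256 * R0 ^ 2) * y ^ 2 := by ring
          _ ≤ (256 * R0 ^ 2) * (256 * R0 ^ 2) * y ^ 2 := by
              apply mul_le_mul_of_nonneg_right _ (by positivity)
              apply mul_le_mul_of_nonneg_right _ (by positivity)
              have : 1 ≤ R0 ^ 2 := one_le_pow₀ hR01
              linarith
          _ = _ := by ring
      exact le_of_sq_le_sq e1 (by positivity)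
    have hdD := dyad (seg n q) hD1
    have hdq := dyad q hqp.one_lt.le
    rw [Finset.mem_biUnion]
    refine ⟨k, ?_, ?_⟩
    · rw [Finset.mem_Icc]
      refine ⟨hk2, ?_⟩
      have e1 := card_ge_le (w := 2) (by omega : 0 < n) hn2 (by norm_num)
      have e2 : n.primeFactors.filter (fun p : ℕ => (2 : ℝ) ≤ p) = n.primeFactors := by
        apply Finset.filter_true_of_mem
        intro p hp
        exact_mod_cast (Nat.prime_of_mem_primeFactors hp).two_le
      rw [e2] at e1
      have e3 : (n.primeFactors.card : ℝ) ≤ R0 := by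
        have hl2' : 0 < Real.log 2 := by linarith
        exact le_of_mul_le_mul_right (e1.trans hNR0) hl2'
      have e4 : n.primeFactors.card ≤ ⌊R0⌋₊ := Nat.le_floor e3
      omega
    rw [Finset.mem_biUnion]
    refine ⟨Nat.clog 2 (seg n q), Finset.mem_range.mpr (hAb _ hD1 hDu), ?_⟩
    rw [Finset.mem_biUnion]
    refine ⟨Nat.clog 2 q, Finset.mem_range.mpr (hAb _ hqp.one_lt.le hqu), ?_⟩
    unfold Sc
    rw [Finset.mem_filter, Finset.mem_Ioc]
    exact ⟨⟨hn1, hn2⟩, hl, hkn, q, hqp, hqn, hc1, hc2, hdD.1, hdD.2, hdq.1, hdq.2⟩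
  -- the bound of a class
  set F := Real.exp (-(h ^ 2 * L ^ 2)) with hF
  have hF0 : 0 < F := Real.exp_pos _
  set G := F * Real.sqrt y * (14 * Real.exp (2 * L)) with hG
  have hKu : (K : ℝ) ≤ 2 * Real.exp (2 * L) := by
    have e1 : ((⌊R0⌋₊ : ℕ) : ℝ) ≤ R0 := Nat.floor_le (by linarith)
    rw [hK]; push_cast
    linarith
  have hclass : ∀ k ∈ Finset.Icc 2 K, ∀ a b : ℕ, ((Sc x y k (2 ^ a) (2 ^ b)).card : ℝ) ≤ G := by
    intro k hk a b
    rw [Finset.mem_Icc] at hk
    have hG0 : 0 ≤ G := by positivity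
    rcases (Sc x y k (2 ^ a) (2 ^ b)).eq_empty_or_nonempty with he | ⟨n, hn⟩
    · rw [he, Finset.card_empty, Nat.cast_zero]; exact hG0
    unfold Sc at hn
    rw [Finset.mem_filter, Finset.mem_Ioc] at hn
    obtain ⟨⟨hn1, hn2⟩, hl, hkn, q, hqp, hqn, hc1, hc2, hT1, hT2, hQ1, hQ2⟩ := hn
    have hF2 := hfam k (by omega)
    have hst : StI (x + y) k (seg n q) q := ⟨n, hl, hn2, hkn, hqp, hqn, rfl⟩
    have hkey := DenseA.key hF2.fam hst
    have hq0 : (0 : ℝ) < q := by exact_mod_cast hqp.pos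
    have hc1' : (y : ℝ) ≤ (seg n q : ℝ) ^ 2 * q := by exact_mod_cast hc1
    have hc2' : (seg n q : ℝ) ^ 2 < y * q := by exact_mod_cast hc2
    set T : ℝ := 2 ^ a with hTdef
    set Q : ℝ := 2 ^ b with hQdef
    have hT0 : 0 < T := by rw [hTdef]; positivity
    have hQ0 : 0 < Q := by rw [hQdef]; positivity
    have k1 : (y : ℝ) ≤ T ^ 2 * Q := by
      refine hc1'.trans ?_
      apply mul_le_mul _ hQ2 hq0.le (by positivity)
      exact pow_le_pow_left₀ (Nat.cast_nonneg _) hT2 2
    have k2 : T ^ 2 ≤ 4 * y * Q := by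
      have e1 : (T / 2) ^ 2 ≤ (seg n q : ℝ) ^ 2 := pow_le_pow_left₀ (by positivity) hT1.le 2
      have e2 : (y : ℝ) * q ≤ y * Q := mul_le_mul_of_nonneg_left hQ2 hy0.le
      have e3 : (T / 2) ^ 2 = T ^ 2 / 4 := by ring
      linarith
    have k3 : Q ≤ 32 * R0 * T := by
      have e1 : 16 * R0 * (seg n q : ℝ) ≤ 16 * R0 * T :=
        mul_le_mul_of_nonneg_left hT2 (by linarith)
      linarith
    have k4 : Q ≤ 512 * R0 ^ 2 * y := by
      have e1 : (q : ℝ) * q ≤ (256 * R0 ^ 2 * y) * q := by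
        calc (q : ℝ) * q ≤ (16 * R0 * (seg n q : ℝ)) * (16 * R0 * (seg n q : ℝ)) :=
              mul_le_mul hkey hkey hq0.le (by positivity)
          _ = 256 * R0 ^ 2 * (seg n q : ℝ) ^ 2 := by ring
          _ ≤ 256 * R0 ^ 2 * (y * q) := mul_le_mul_of_nonneg_left hc2'.le (by positivity)
          _ = _ := by ring
      have e2 : (q : ℝ) ≤ 256 * R0 ^ 2 * y := le_of_mul_le_mul_right e1 hq0
      linarith
    have hfn := hbound L hLL1 k R R0 W (StI (x + y) k) hF2 hRu hR0u hWu y T Q hy0 hexpL hT0 hQ0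
      k1 k3 k4
    refine (cls_bound hT0 hQ0 k1 k2 hfn).trans ?_
    rw [hG]
    apply mul_le_mul_of_nonneg_left _ (by positivity)
    have e1 : (k : ℝ) ≤ K := by exact_mod_cast hk.2
    have e2 : (1 : ℝ) ≤ Real.exp (2 * L) := Real.one_le_exp (by positivity)
    linarith
  -- the total
  have hAu : (A : ℝ) ≤ 3 * E := by
    have e1 : ((⌊2 * E⌋₊ : ℕ) : ℝ) ≤ 2 * E := Nat.floor_le (by positivity)
    have e2 : (1 : ℝ) ≤ E := Real.one_le_exp hLpos.le
    rw [hA]; push_cast
    linarith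
  have hG0 : 0 ≤ G := by positivity
  have htot : (((Finset.Ioc x (x + y)).filter Leh).card : ℝ) ≤ K * (A * (A * G)) := by
    have e1 : (((Finset.Ioc x (x + y)).filter Leh).card : ℝ) ≤
        (((Finset.Icc 2 K).biUnion (fun k => (Finset.range A).biUnion (fun a =>
          (Finset.range A).biUnion (fun b => Sc x y k (2 ^ a) (2 ^ b))))).card : ℝ) := by
      exact_mod_cast Finset.card_le_card hcover
    refine e1.trans ?_
    have e2 : (((Finset.Icc 2 K).biUnion (fun k => (Finset.range A).biUnion (fun a =>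
          (Finset.range A).biUnion (fun b => Sc x y k (2 ^ a) (2 ^ b))))).card : ℝ) * 1 ≤
        (Finset.Icc 2 K).card * (A * (A * G)) := by
      apply card_biUnion_mul_le _ _ (by norm_num)
      intro k hk
      refine (card_biUnion_mul_le (Finset.range A) _ (by norm_num) (e := A * G) ?_).trans ?_
      · intro a _
        refine (card_biUnion_mul_le (Finset.range A) _ (by norm_num) (e := G) ?_).trans ?_
        · intro b _
          rw [mul_one]
          exact hclass k hk a b
        · rw [Finset.card_range]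
      · rw [Finset.card_range]
    rw [mul_one] at e2
    refine e2.trans ?_
    apply mul_le_mul_of_nonneg_right _ (by positivity)
    have : (Finset.Icc 2 K).card ≤ K := by rw [Nat.card_Icc]; omega
    exact_mod_cast this
  refine htot.trans ?_
  have hfin : (K : ℝ) * (A * (A * G)) ≤ Real.sqrt y * (252 * Real.exp (6 * L) * F) := by
    have e1 : (K : ℝ) * (A * (A * G)) ≤
        (2 * Real.exp (2 * L)) * ((3 * E) * ((3 * E) * G)) := by
      apply mul_le_mul hKu _ (by positivity) (by positivity)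
      apply mul_le_mul hAu _ (by positivity) (by positivity)
      exact mul_le_mul_of_nonneg_right hAu hG0
    refine e1.trans (le_of_eq ?_)
    have e2 : Real.exp (6 * L) = Real.exp (2 * L) * Real.exp (2 * L) * (E * E) := by
      rw [hE, ← Real.exp_add, ← Real.exp_add, ← Real.exp_add]; congr 1; ring
    rw [e2, hG]
    ring
  refine hfin.trans ?_
  apply mul_le_mul_of_nonneg_left _ (Real.sqrt_nonneg _)
  calc 252 * Real.exp (6 * L) * F ≤ Real.exp (1 / 1000 * L) * Real.exp (6 * L) * F := by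
        apply mul_le_mul_of_nonneg_right _ hF0.le
        apply mul_le_mul_of_nonneg_right _ (Real.exp_pos _).le
        linarith
    _ = Real.exp (6001 / 1000 * L - h ^ 2 * L ^ 2) := by
        rw [hF, ← Real.exp_add, ← Real.exp_add]; congr 1; ring
    _ ≤ _ := by
        apply Real.exp_le_exp.mpr
        have h12 : h ^ 2 * (14 / h ^ 2) ≤ h ^ 2 * L := mul_le_mul_of_nonneg_left hL14 hh2.le
        have h13 : h ^ 2 * (14 / h ^ 2) = 14 := by field_simp
        have h14 : 14 * L ≤ (h ^ 2 * L) * L := mul_le_mul_of_nonneg_right (by linarith) hLpos.le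
        have h15 : (h ^ 2 * L) * L = h ^ 2 * L ^ 2 := by ring
        linarith

end Pool.Agent.H96.LT
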