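import Pool.Agent.H96.LT.Fin
import Pool.Graph.R_seed8.TH836.Leh.Final2

set_option autoImplicit false

/-!
# Lehmer numbers in short intervals: the theorem
-/

namespace Pool.Agent.H96.LT

open Finset Pool.Agent.H95R2.Leh Pool.Agent.TH836.Leh

open Classical in
/-- the count for `x < y` -/
theorem near_case (c : ℝ) (hc : c ≤ 1 / 48) : ∃ C : ℝ, 0 < C ∧ ∀ x y : ℕ, 16 ≤ y → x < y →
    (((Finset.Ioc x (x + y)).filter Leh).card : ℝ) ≤
      C * (Real.sqrt y * Real.exp (-(c * (Real.log (Real.log y)) ^ 2))) := by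
  obtain ⟨C, hC, hcount⟩ := lehmer_count2
  refine ⟨2 * C, by linarith, ?_⟩
  intro x y hy hxy
  have hyR : (16 : ℝ) ≤ y := by exact_mod_cast hy
  have hy0 : (0 : ℝ) < y := by linarith
  have h1 := hcount (2 * y) (by omega)
  have h2 : (((Finset.Ioc x (x + y)).filter Leh).card : ℝ) ≤
      ((((Finset.Icc 1 (2 * y)).filter Leh).card : ℕ) : ℝ) := by
    have : (Finset.Ioc x (x + y)).filter Leh ⊆ (Finset.Icc 1 (2 * y)).filter Leh := by
      intro n hn
      rw [Finset.mem_filter, Finset.mem_Ioc] at hn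
      rw [Finset.mem_filter, Finset.mem_Icc]
      exact ⟨⟨by omega, by omega⟩, hn.2⟩
    exact_mod_cast Finset.card_le_card this
  refine h2.trans (h1.trans ?_)
  have hl16 : 1 ≤ Real.log y := by
    rw [Real.le_log_iff_exp_le hy0]
    have := Real.exp_one_lt_d9
    linarith
  have hlog : Real.log y ≤ Real.log ((2 * y : ℕ) : ℝ) := by
    apply Real.log_le_log hy0
    push_cast; linarith
  have hll0 : 0 ≤ Real.log (Real.log y) := Real.log_nonneg hl16
  have hll : Real.log (Real.log y) ≤ Real.log (Real.log ((2 * y : ℕ) : ℝ)) :=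
    Real.log_le_log (by linarith) hlog
  have h3 : (Real.log (Real.log y)) ^ 2 ≤ (Real.log (Real.log ((2 * y : ℕ) : ℝ))) ^ 2 :=
    pow_le_pow_left₀ hll0 hll 2
  have h4 : Real.exp (-((Real.log (Real.log ((2 * y : ℕ) : ℝ))) ^ 2 / 48)) ≤
      Real.exp (-(c * (Real.log (Real.log y)) ^ 2)) := by
    apply Real.exp_le_exp.mpr
    have h5 : c * (Real.log (Real.log y)) ^ 2 ≤ 1 / 48 * (Real.log (Real.log y)) ^ 2 :=
      mul_le_mul_of_nonneg_right hc (by positivity)
    linarith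
  have h5 : Real.sqrt ((2 * y : ℕ) : ℝ) ≤ 2 * Real.sqrt y := by
    apply Real.sqrt_le_iff.mpr
    refine ⟨by positivity, ?_⟩
    rw [mul_pow, Real.sq_sqrt hy0.le]
    push_cast
    linarith
  calc C * (Real.sqrt ((2 * y : ℕ) : ℝ) *
        Real.exp (-((Real.log (Real.log ((2 * y : ℕ) : ℝ))) ^ 2 / 48))) ≤
      C * ((2 * Real.sqrt y) * Real.exp (-(c * (Real.log (Real.log y)) ^ 2))) := by
        apply mul_le_mul_of_nonneg_left _ hC.le
        exact mul_le_mul h5 h4 (Real.exp_pos _).le (by positivity)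
    _ = _ := by ring

open Classical in
/-- the count in intervals `(x, x + y]` with `log (x + y) ≤ (log y) ^ (2 - 20 h)` -/
theorem main0 (h : ℝ) (hh0 : 0 < h) (hh1 : h ≤ 1 / 100) : ∃ C : ℝ, 0 < C ∧ ∀ x y : ℕ, 16 ≤ y →
    Real.log (x + y) ≤ (Real.log y) ^ (2 - 20 * h : ℝ) →
    (((Finset.Ioc x (x + y)).filter Leh).card : ℝ) ≤
      C * (Real.sqrt y * Real.exp (-(h ^ 2 / 2 * (Real.log (Real.log y)) ^ 2))) := by
  have hc48 : h ^ 2 / 2 ≤ 1 / 48 := by nlinarith
  obtain ⟨C1, hC1, hnear⟩ := near_case (h ^ 2 / 2) hc48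
  obtain ⟨Y0, hY0, hfar⟩ := far_case h hh0 hh1
  set g0 := Real.exp (-(h ^ 2 / 2 * (Real.log (Real.log Y0)) ^ 2)) with hg0
  have hg00 : 0 < g0 := Real.exp_pos _
  refine ⟨C1 + 1 + Y0 / g0, by positivity, ?_⟩
  intro x y hy hlog
  have hyR : (16 : ℝ) ≤ y := by exact_mod_cast hy
  have hy0 : (0 : ℝ) < y := by linarith
  set g := Real.sqrt y * Real.exp (-(h ^ 2 / 2 * (Real.log (Real.log y)) ^ 2)) with hg
  have hgpos : 0 < g := by
    have := Real.sqrt_pos.mpr hy0
    positivity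
  have hYg : 0 ≤ Y0 / g0 * g := by positivity
  rcases Nat.lt_or_ge x y with hxy | hxy
  · have h1 := hnear x y hy hxy
    rw [← hg] at h1
    nlinarith
  rcases le_or_gt Y0 (y : ℝ) with hyY | hyY
  · have h1 := hfar x y hyY hxy hlog
    rw [← hg] at h1
    have : 0 ≤ C1 * g := by positivity
    nlinarith
  · have h1 : (((Finset.Ioc x (x + y)).filter Leh).card : ℝ) ≤ y := by
      have : ((Finset.Ioc x (x + y)).filter Leh).card ≤ y := by
        refine le_trans (Finset.card_filter_le _ _) ?_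
        rw [Nat.card_Ioc]; omega
      exact_mod_cast this
    have hl16 : 1 ≤ Real.log y := by
      rw [Real.le_log_iff_exp_le hy0]
      have := Real.exp_one_lt_d9
      linarith
    have hll0 : 0 ≤ Real.log (Real.log y) := Real.log_nonneg hl16
    have hll : Real.log (Real.log y) ≤ Real.log (Real.log Y0) :=
      Real.log_le_log (by linarith) (Real.log_le_log hy0 hyY.le)
    have h3 : (Real.log (Real.log y)) ^ 2 ≤ (Real.log (Real.log Y0)) ^ 2 :=
      pow_le_pow_left₀ hll0 hll 2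
    have h4 : g0 ≤ Real.exp (-(h ^ 2 / 2 * (Real.log (Real.log y)) ^ 2)) := by
      rw [hg0]
      apply Real.exp_le_exp.mpr
      have := mul_le_mul_of_nonneg_left h3 (show 0 ≤ h ^ 2 / 2 by positivity)
      linarith
    have h5 : 1 ≤ Real.sqrt y := by
      rw [Real.one_le_sqrt]; linarith
    have h6 : g0 ≤ g := by
      rw [hg]
      calc g0 = 1 * g0 := (one_mul _).symm
        _ ≤ _ := mul_le_mul h5 h4 hg00.le (Real.sqrt_nonneg _)
    have h7 : (y : ℝ) ≤ Y0 / g0 * g := by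
      calc (y : ℝ) ≤ Y0 := hyY.le
        _ = Y0 / g0 * g0 := by field_simp
        _ ≤ Y0 / g0 * g := mul_le_mul_of_nonneg_left h6 (by positivity)
    have : 0 ≤ C1 * g := by positivity
    nlinarith

open Classical in
/-- the count in intervals `(x, x + y]` with `y ≥ exp ((log (x + y)) ^ (1 / 2 + ε))` -/
theorem main (ε : ℝ) (hε : 0 < ε) : ∃ c C : ℝ, 0 < c ∧ 0 < C ∧ ∀ x y : ℕ, 16 ≤ y →
    (Real.log (x + y)) ^ (1 / 2 + ε : ℝ) ≤ Real.log y →
    (((Finset.Ioc x (x + y)).filter Leh).card : ℝ) ≤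
      C * (Real.sqrt y * Real.exp (-(c * (Real.log (Real.log y)) ^ 2))) := by
  set h := min (ε / 10) (1 / 100) with hh
  have hh0 : 0 < h := lt_min (by positivity) (by norm_num)
  have hh1 : h ≤ 1 / 100 := min_le_right _ _
  have hh2 : h ≤ ε / 10 := min_le_left _ _
  obtain ⟨C, hC, hmain⟩ := main0 h hh0 hh1
  refine ⟨h ^ 2 / 2, C, by positivity, hC, ?_⟩
  intro x y hy hlog
  apply hmain x y hy
  have hyR : (16 : ℝ) ≤ y := by exact_mod_cast hy
  have hx0 : (0 : ℝ) ≤ x := Nat.cast_nonneg _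
  have hy0 : (0 : ℝ) < y := by linarith
  have hl16 : 1 ≤ Real.log y := by
    rw [Real.le_log_iff_exp_le hy0]
    have := Real.exp_one_lt_d9
    linarith
  have hN0 : 0 ≤ Real.log ((x : ℝ) + y) := Real.log_nonneg (by linarith)
  have hexp0 : 0 < 1 / 2 + ε := by linarith
  have h1 : Real.log ((x : ℝ) + y) =
      ((Real.log ((x : ℝ) + y)) ^ (1 / 2 + ε : ℝ)) ^ (1 / (1 / 2 + ε) : ℝ) := by
    rw [← Real.rpow_mul hN0, mul_one_div_cancel hexp0.ne', Real.rpow_one]
  rw [h1]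
  have h2 : ((Real.log ((x : ℝ) + y)) ^ (1 / 2 + ε : ℝ)) ^ (1 / (1 / 2 + ε) : ℝ) ≤
      (Real.log y) ^ (1 / (1 / 2 + ε) : ℝ) :=
    Real.rpow_le_rpow (Real.rpow_nonneg hN0 _) hlog (by positivity)
  refine h2.trans ?_
  apply Real.rpow_le_rpow_of_exponent_le hl16
  rw [div_le_iff₀ hexp0]
  have h3 : h * ε ≤ 1 / 100 * ε := mul_le_mul_of_nonneg_right hh1 hε.le
  nlinarith

end Pool.Agent.H96.LT
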