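import Pool.Agent.H96.LS.Norm

set_option autoImplicit false

/-!
# Class bounds for `Fam2` in normalised form, with `√R` in place of `R`
-/

namespace Pool.Agent.H96.LT

open Finset Pool.Agent.H95R2.Leh Pool.Agent.H96.LS

/-- normalised class bounds -/
theorem cls_norm : ∃ C : ℝ, 1 ≤ C ∧ ∀ (k : ℕ) (R R0 W : ℝ) (St : ℕ → ℕ → Prop), Fam2 k R R0 W St →
    ∀ y P z P' Y F : ℝ, 0 < y → 2 * W ≤ P → 0 < z → 4 * (16 * R / P) * z ^ 2 < 1 →
    6400 * R0 ≤ P' → 1 ≤ Real.log P' → 1 ≤ Y → 1 / 4 ≤ (16 * R / P) * Y ^ 2 →
    Fn St (2 * y / Y) P' ≤ F → Fn St (y / Y) P' ≤ F →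
    ((Cls St y P z P' Y).card : ℝ) * (Real.sqrt P / y) ≤
      C * Real.sqrt R * (1 + Real.log (1 + Real.log P)) * F / Real.log P' ∧
    ((Cls St y P z P' Y).card : ℝ) * (Real.sqrt P / y) ≤
      C * R * F * Real.exp (Real.log Y - (Real.log P + Real.log P') / 2) ∧
    ((Cls St y P z P' Y).card : ℝ) * (Real.sqrt P / y) ≤
      C * R * F * Real.exp (-(Real.log Y - (Real.log P + Real.log P') / 2)) := by
  obtain ⟨Cr, hCr1, hCr⟩ := LS.cls_rough
  obtain ⟨Cp, hCp1, hCp⟩ := LS.cls_prime
  refine ⟨1600 * Cr + 3 * Cp, by linarith, ?_⟩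
  intro k R R0 W St hF y P z P' Y F hy hP hz hz4 hP' hlP' hY hM4 hF1 hF2
  have hR := hF.one
  have hRR := hF.le
  have hWW := hF.large
  have hP0 : 0 < P := by linarith
  have hP'0 : 0 < P' := by linarith
  have hY0 : 0 < Y := by linarith
  have hF0 : 0 ≤ F := by
    refine le_trans ?_ hF2
    unfold Fn
    positivity
  have hlP : 1 ≤ Real.log P := by
    have h1 : (256 : ℝ) ≤ P := by linarith
    have h2 : Real.exp 1 ≤ P := by
      have := Real.exp_one_lt_d9
      linarith
    have := Real.log_le_log (Real.exp_pos 1) h2
    rwa [Real.log_exp] at this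
  set sP := Real.sqrt P with hsP
  set sP' := Real.sqrt P' with hsP'
  have hsP0 : 0 < sP := Real.sqrt_pos.mpr hP0
  have hsP'0 : 0 < sP' := Real.sqrt_pos.mpr hP'0
  have hsPsq : sP ^ 2 = P := Real.sq_sqrt hP0.le
  have hsP'sq : sP' ^ 2 = P' := Real.sq_sqrt hP'0.le
  -- G = Y / (sP * sP')
  set G := Y / (sP * sP') with hG
  have hG0 : 0 < G := by positivity
  have hGexp : Real.exp (Real.log Y - (Real.log P + Real.log P') / 2) = G := by
    have e1 : Real.log P = 2 * Real.log sP := by
      rw [← hsPsq, Real.log_pow]; norm_num
    have e2 : Real.log P' = 2 * Real.log sP' := by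
      rw [← hsP'sq, Real.log_pow]; norm_num
    rw [e1, e2, show Real.log Y - (2 * Real.log sP + 2 * Real.log sP') / 2 =
      Real.log Y - (Real.log sP + Real.log sP') by ring, Real.exp_sub, Real.exp_add,
      Real.exp_log hY0, Real.exp_log hsP0, Real.exp_log hsP'0]
  have hGexp' : Real.exp (-(Real.log Y - (Real.log P + Real.log P') / 2)) = 1 / G := by
    rw [Real.exp_neg, hGexp, one_div]
  rw [hGexp, hGexp']
  have hwt : sP / (Y * sP') = 1 / (G * P') := by
    rw [hG, ← hsP'sq]
    field_simp
  have hYG : Y = G * (sP * sP') := by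
    rw [hG]; field_simp
  set M := (16 * R / P) * Y ^ 2 with hM
  have hMG : M = 16 * R * G ^ 2 * P' := by
    rw [hM, hYG, ← hsPsq, ← hsP'sq]
    field_simp
  have hdd := dd_norm (St := St) hy hP0 hP'0 hY0 hF1 hF2
  rw [hwt] at hdd
  set DS := ((DD St (2 * y / Y) P').card : ℝ) + (DD St (y / Y) P').card with hDS
  set NC := ((Cls St y P z P' Y).card : ℝ) with hNC
  set LL := 1 + Real.log (1 + Real.log P) with hLL
  have hLL1 : 1 ≤ LL := by
    have : 0 ≤ Real.log (1 + Real.log P) := Real.log_nonneg (by linarith)
    linarith
  have hW0 : 0 < sP / y := by positivity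
  -- (B2)
  have hB2 : NC * (sP / y) ≤ 384 * R * F * G := by
    have h1 := LS.cls_farey hF (y := y) (P := P) (z := z) (P' := P') (Y := Y) hy hP (by linarith) hY
    have h2 : NC * (sP / y) ≤ (DS * (sP / y)) * (1 + 4 * (16 * R / P) * Y ^ 2) := by
      calc NC * (sP / y) ≤ (DS * (1 + 4 * (16 * R / P) * Y ^ 2)) * (sP / y) :=
            mul_le_mul_of_nonneg_right h1 hW0.le
        _ = _ := by ring
    have h3 : 1 + 4 * (16 * R / P) * Y ^ 2 ≤ 8 * M := by
      rw [hM]; linarith
    have h30 : 0 ≤ 1 + 4 * (16 * R / P) * Y ^ 2 := by positivity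
    calc NC * (sP / y) ≤ (DS * (sP / y)) * (1 + 4 * (16 * R / P) * Y ^ 2) := h2
      _ ≤ (3 * F * (1 / (G * P'))) * (8 * M) := by
          apply mul_le_mul hdd h3 h30 (by positivity)
      _ = 384 * R * F * G := by
          rw [hMG]; field_simp; ring
  -- (B3)
  have hB3 : NC * (sP / y) ≤ 3 * Cp * F / (G * Real.log P') := by
    have h1 := hCp k R R0 W St hF y P z P' Y hy hP (by linarith) hY0 hz hz4
    calc NC * (sP / y) ≤ (DS * (Cp * P' / Real.log P')) * (sP / y) :=
            mul_le_mul_of_nonneg_right h1 hW0.le
      _ = (DS * (sP / y)) * (Cp * P' / Real.log P') := by ring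
      _ ≤ (3 * F * (1 / (G * P'))) * (Cp * P' / Real.log P') := by
          apply mul_le_mul_of_nonneg_right hdd (by positivity)
      _ = 3 * Cp * F / (G * Real.log P') := by field_simp
  have hB3' : NC * (sP / y) ≤ 3 * Cp * F / G := by
    refine le_trans hB3 ?_
    apply div_le_div_of_nonneg_left (by positivity) hG0
    exact le_mul_of_one_le_right hG0.le hlP'
  have hlP'0 : 0 < Real.log P' := by linarith
  set sR := Real.sqrt R with hsR
  have hsRsq : sR * sR = R := Real.mul_self_sqrt (by linarith)
  have hsR1 : 1 ≤ sR := by rw [hsR, Real.one_le_sqrt]; exact hR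
  have hsR0 : 0 < sR := by linarith
  refine ⟨?_, ?_, ?_⟩
  · -- (B1)
    by_cases hG1 : 1 < G
    · refine le_trans hB3 ?_
      rw [div_le_div_iff₀ (by positivity) hlP'0]
      have h1 : 3 * Cp ≤ (1600 * Cr + 3 * Cp) * sR * LL := by
        have h10 : 1 ≤ sR * LL := one_le_mul_of_one_le_of_one_le hsR1 hLL1
        have h11 : (1600 * Cr + 3 * Cp) * 1 ≤ (1600 * Cr + 3 * Cp) * (sR * LL) :=
          mul_le_mul_of_nonneg_left h10 (by linarith)
        rw [mul_assoc]
        linarith
      have h2 : 3 * Cp * F * Real.log P' ≤ ((1600 * Cr + 3 * Cp) * sR * LL) * F * Real.log P' := by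
        apply mul_le_mul_of_nonneg_right _ hlP'0.le
        exact mul_le_mul_of_nonneg_right h1 hF0
      have h3 : ((1600 * Cr + 3 * Cp) * sR * LL) * F * Real.log P' ≤
          ((1600 * Cr + 3 * Cp) * sR * LL) * F * Real.log P' * G := by
        apply le_mul_of_one_le_right (by positivity) hG1.le
      calc 3 * Cp * F * Real.log P' ≤ _ := h2
        _ ≤ _ := h3
        _ = _ := by ring
    · push Not at hG1
      by_cases hMs : sP' ≤ M
      · -- rough bound
        have hsP'1 : 1 ≤ sP' := by
          rw [hsP']
          rw [show (1 : ℝ) = Real.sqrt 1 by simp]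
          apply Real.sqrt_le_sqrt
          linarith
        have hM1 : 1 ≤ M := le_trans hsP'1 hMs
        have h400 : 400 * M ≤ P' ^ 2 := by
          rw [hMG]
          have : G ^ 2 ≤ 1 := pow_le_one₀ hG0.le hG1
          have h2 : 16 * R * G ^ 2 * P' ≤ 16 * R * 1 * P' := by
            apply mul_le_mul_of_nonneg_right _ hP'0.le
            apply mul_le_mul_of_nonneg_left this (by positivity)
          calc 400 * (16 * R * G ^ 2 * P') ≤ 400 * (16 * R * 1 * P') := by linarith
            _ = (6400 * R) * P' := by ring
            _ ≤ P' * P' := mul_le_mul_of_nonneg_right (show 6400 * R ≤ P' by linarith) hP'0.le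
            _ = P' ^ 2 := by ring
        have h1 := hCr k R R0 W St hF y P z P' Y hy hP (by linarith) hY hM1 h400
        rw [← hM] at h1
        have hl2 : 0 < Real.log (2 + M) := Real.log_pos (by linarith)
        have hl2' : Real.log (2 + M) ≤ 1 + M := by
          have := Real.log_le_sub_one_of_pos (show 0 < 2 + M by linarith)
          linarith
        have hlM : Real.log P' / 2 ≤ Real.log (2 + M) := by
          have e2 : Real.log P' = 2 * Real.log sP' := by
            rw [← hsP'sq, Real.log_pow]; norm_num
          rw [e2]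
          have : Real.log sP' ≤ Real.log (2 + M) := Real.log_le_log hsP'0 (by linarith)
          linarith
        have h2 : 1 + Cr * M * LL / Real.log (2 + M) ≤ 3 * Cr * M * LL / Real.log (2 + M) := by
          rw [← sub_nonneg]
          have : 3 * Cr * M * LL / Real.log (2 + M) - (1 + Cr * M * LL / Real.log (2 + M)) =
            (2 * Cr * M * LL - Real.log (2 + M)) / Real.log (2 + M) := by
            field_simp; ring
          rw [this]
          apply div_nonneg _ hl2.le
          have h5 : M ≤ Cr * M * LL := by
            have : 1 ≤ Cr * LL := one_le_mul_of_one_le_of_one_le hCr1 hLL1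
            calc M = M * 1 := by ring
              _ ≤ M * (Cr * LL) := mul_le_mul_of_nonneg_left this (by linarith)
              _ = _ := by ring
          linarith
        have h3 : 3 * Cr * M * LL / Real.log (2 + M) ≤ 6 * Cr * M * LL / Real.log P' := by
          rw [div_le_div_iff₀ hl2 hlP'0]
          have h6 : 0 ≤ 3 * Cr * M * LL := by positivity
          have h7 := mul_le_mul_of_nonneg_left hlM h6
          linarith
        have hrough : NC * (sP / y) ≤ (288 * Cr * R * LL * F / Real.log P') * G := by
          calc NC * (sP / y) ≤ (DS * (1 + Cr * M * LL / Real.log (2 + M))) * (sP / y) :=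
                mul_le_mul_of_nonneg_right h1 hW0.le
            _ = (DS * (sP / y)) * (1 + Cr * M * LL / Real.log (2 + M)) := by ring
            _ ≤ (3 * F * (1 / (G * P'))) * (6 * Cr * M * LL / Real.log P') := by
                apply mul_le_mul hdd (le_trans h2 h3) (by positivity) (by positivity)
            _ = (288 * Cr * R * LL * F / Real.log P') * G := by
                rw [hMG]; field_simp; ring
        rcases le_or_gt (sR * G) 1 with hsG | hsG
        · refine hrough.trans ?_
          calc (288 * Cr * R * LL * F / Real.log P') * G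
              = (288 * Cr * sR * LL * F / Real.log P') * (sR * G) := by
                rw [← hsRsq]; ring
            _ ≤ (288 * Cr * sR * LL * F / Real.log P') * 1 := by
                apply mul_le_mul_of_nonneg_left hsG (by positivity)
            _ ≤ (1600 * Cr + 3 * Cp) * sR * LL * F / Real.log P' := by
                rw [mul_one]
                apply div_le_div_of_nonneg_right _ hlP'0.le
                apply mul_le_mul_of_nonneg_right _ hF0
                apply mul_le_mul_of_nonneg_right _ (by linarith)
                apply mul_le_mul_of_nonneg_right _ (by linarith)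
                linarith
        · refine hB3.trans ?_
          rw [div_le_div_iff₀ (by positivity) hlP'0]
          have h5 : 3 * Cp ≤ (1600 * Cr + 3 * Cp) * LL := by
            have h50 : (1600 * Cr + 3 * Cp) * 1 ≤ (1600 * Cr + 3 * Cp) * LL :=
              mul_le_mul_of_nonneg_left hLL1 (by linarith)
            linarith
          calc 3 * Cp * F * Real.log P' ≤ ((1600 * Cr + 3 * Cp) * LL) * F * Real.log P' := by
                apply mul_le_mul_of_nonneg_right _ hlP'0.le
                exact mul_le_mul_of_nonneg_right h5 hF0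
            _ = ((1600 * Cr + 3 * Cp) * LL * F * Real.log P') * 1 := by ring
            _ ≤ ((1600 * Cr + 3 * Cp) * LL * F * Real.log P') * (sR * G) := by
                apply mul_le_mul_of_nonneg_left hsG.le (by positivity)
            _ = _ := by ring
      · push Not at hMs
        -- G^2 ≤ 1/(16 R sP')
        have h1 : 16 * R * G ^ 2 * sP' < 1 := by
          have : 16 * R * G ^ 2 * sP' * sP' < 1 * sP' := by
            calc 16 * R * G ^ 2 * sP' * sP' = M := by rw [hMG, ← hsP'sq]; ring
              _ < sP' := hMs
              _ = 1 * sP' := by ring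
          exact lt_of_mul_lt_mul_right this hsP'0.le
        -- sP' = exp (log P' / 2)
        have e3 : sP' = Real.exp (Real.log P' / 4) ^ 2 := by
          rw [← Real.exp_nat_mul]
          have : ((2 : ℕ) : ℝ) * (Real.log P' / 4) = Real.log P' / 2 := by push_cast; ring
          rw [this, hsP', Real.sqrt_eq_rpow, Real.rpow_def_of_pos hP'0]
          ring_nf
        set E := Real.exp (Real.log P' / 4) with hE
        have hE0 : 0 < E := Real.exp_pos _
        have h2 : (4 * sR * G * E) ^ 2 < 1 := by
          have : (4 * sR * G * E) ^ 2 = 16 * (sR * sR) * G ^ 2 * sP' := by rw [e3]; ring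
          rw [this, hsRsq]
          exact h1
        have h3 : 4 * sR * G * E < 1 := by
          by_contra h
          push Not at h
          have := one_le_pow₀ (n := 2) h
          linarith
        have h4 : Real.log P' ≤ 4 * E := log_le_four_exp (by linarith)
        have h5 : (sR * G) * Real.log P' ≤ 1 := by
          have h50 := mul_le_mul_of_nonneg_left h4 (show 0 ≤ sR * G by positivity)
          have h51 : sR * G * (4 * E) = 4 * sR * G * E := by ring
          linarith
        refine le_trans hB2 ?_
        rw [le_div_iff₀ hlP'0]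
        calc 384 * R * F * G * Real.log P' = 384 * ((sR * G) * Real.log P') * (sR * F) := by
              rw [← hsRsq]; ring
          _ ≤ 384 * 1 * (sR * F) := by
              apply mul_le_mul_of_nonneg_right _ (by positivity)
              linarith
          _ ≤ (1600 * Cr + 3 * Cp) * (sR * F) := by
              apply mul_le_mul_of_nonneg_right _ (by positivity)
              linarith
          _ ≤ (1600 * Cr + 3 * Cp) * (sR * F) * LL := by
              apply le_mul_of_one_le_right (by positivity) hLL1
          _ = _ := by ring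
  · refine le_trans hB2 ?_
    apply mul_le_mul_of_nonneg_right _ hG0.le
    apply mul_le_mul_of_nonneg_right _ hF0
    apply mul_le_mul_of_nonneg_right _ (by linarith)
    linarith
  · refine le_trans hB3' ?_
    rw [mul_one_div]
    apply div_le_div_of_nonneg_right _ hG0.le
    apply mul_le_mul_of_nonneg_right _ hF0
    have h11 : (1600 * Cr + 3 * Cp) * 1 ≤ (1600 * Cr + 3 * Cp) * R :=
      mul_le_mul_of_nonneg_left hR (by linarith)
    linarith


end Pool.Agent.H96.LT
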