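import Pool.Agent.H96.LT.Step

set_option autoImplicit false

/-!
# The potential bound for `Fam2`

Adapted from the library module `TH836.Leh.Pot`, with the floor `exp (exp ((1 - h) L))` and the
sharp closeness parameter as large as `exp ((1 - 18 h) L)`.
-/

namespace Pool.Agent.H96.LT

open Finset Pool.Agent.H95R2.Leh Pool.Agent.TH836.Leh Pool.Agent.H96.LS

/-- the exponent `1 / (2 log 3)` -/
noncomputable def bb : ℝ := 1 / (2 * Real.log 3)

theorem bb_facts : 1 / 4 ≤ bb ∧ bb ≤ 1 / 2 ∧ bb * Real.log 3 = 1 / 2 ∧ Real.log 5 ≤ 2 ∧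
    0 < Real.log 3 := by
  have h1 : 1 ≤ Real.log 3 := by
    rw [Real.le_log_iff_exp_le (by norm_num)]
    have := Real.exp_one_lt_d9
    linarith
  have hexp2 : (7 : ℝ) ≤ Real.exp 2 := by
    have h6 := Real.exp_one_gt_d9
    have h7 : Real.exp 2 = Real.exp 1 * Real.exp 1 := by rw [← Real.exp_add]; norm_num
    nlinarith
  have h2 : Real.log 3 ≤ 2 := by
    rw [Real.log_le_iff_le_exp (by norm_num)]; linarith
  have h3 : Real.log 5 ≤ 2 := by
    rw [Real.log_le_iff_le_exp (by norm_num)]; linarith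
  unfold bb
  refine ⟨?_, ?_, ?_, h3, by linarith⟩
  · rw [div_le_div_iff₀ (by norm_num) (by linarith)]; linarith
  · rw [div_le_div_iff₀ (by linarith) (by norm_num)]; linarith
  · have : Real.log 3 ≠ 0 := by linarith
    field_simp

/-- the majorant -/
noncomputable def Bd4 (h L p Y : ℝ) : ℝ :=
  Real.exp ((bb - 2 * h) * L * (Real.log p - (1 - h) * L) +
    bb * L * (5 * Real.log L + (1 - h) * L - Real.log (Y - 1 / 2 * p)))

theorem Bd4_pos (h L p Y : ℝ) : 0 < Bd4 h L p Y := Real.exp_pos _

theorem Bd4_E {h L p Y p' Y' U : ℝ} (hh0 : 0 < h) (hh1 : h ≤ 1 / 100) (hL : 0 < L) (hp' : 0 < p')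
    (hpp : p' ≤ p) (hYp : (1 - h) * p ≤ Y) (hY : Y - (p + p') / 2 - U ≤ Y')
    (hY' : (1 - h) * p' ≤ Y') (hU : U ≤ h * p') :
    Bd4 h L p' Y' ≤ Bd4 h L p Y * Real.exp ((1 / 2 + 3 / 2 * h) * L) := by
  obtain ⟨b1, b2, b3, b4, b5⟩ := bb_facts
  unfold Bd4
  rw [← Real.exp_add]
  apply Real.exp_le_exp.mpr
  have hp : 0 < p := by linarith
  have h1 : Real.log p' ≤ Real.log p := Real.log_le_log hp' hpp
  have h2 : 0 < Y - 1 / 2 * p := by nlinarith
  have h30 : (1 / 2 - h) * p' ≤ Y' - 1 / 2 * p' := by linarith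
  have h3 : 0 < Y' - 1 / 2 * p' := lt_of_lt_of_le (mul_pos (by linarith) hp') h30
  have h4 : Y - 1 / 2 * p ≤ 3 * Real.exp (3 * h) * (Y' - 1 / 2 * p') := by
    have e1 : Y - 1 / 2 * p ≤ (3 + 8 * h) * (Y' - 1 / 2 * p') := by
      have e2 : (2 + 8 * h) * ((1 / 2 - h) * p') ≤ (2 + 8 * h) * (Y' - 1 / 2 * p') :=
        mul_le_mul_of_nonneg_left h30 (by linarith)
      have e3 : 0 ≤ (h - 8 * h ^ 2) * p' := mul_nonneg (by nlinarith) hp'.le
      nlinarith
    have e4 : 3 + 8 * h ≤ 3 * Real.exp (3 * h) := by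
      have := Real.add_one_le_exp (3 * h)
      linarith
    exact e1.trans (mul_le_mul_of_nonneg_right e4 h3.le)
  have h5 : Real.log (Y - 1 / 2 * p) ≤ Real.log 3 + 3 * h + Real.log (Y' - 1 / 2 * p') := by
    have := Real.log_le_log h2 h4
    rwa [Real.log_mul (by positivity) h3.ne', Real.log_mul (by norm_num) (Real.exp_pos _).ne',
      Real.log_exp] at this
  have h6 : (bb - 2 * h) * L * Real.log p' ≤ (bb - 2 * h) * L * Real.log p :=
    mul_le_mul_of_nonneg_left h1 (mul_nonneg (by linarith) hL.le)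
  have h7 : bb * L * Real.log (Y - 1 / 2 * p) ≤
      bb * L * (Real.log 3 + 3 * h + Real.log (Y' - 1 / 2 * p')) :=
    mul_le_mul_of_nonneg_left h5 (mul_nonneg (by linarith) hL.le)
  have h8 : bb * L * (Real.log 3 + 3 * h + Real.log (Y' - 1 / 2 * p')) =
      1 / 2 * L + 3 * (bb * (h * L)) + bb * L * Real.log (Y' - 1 / 2 * p') := by
    calc bb * L * (Real.log 3 + 3 * h + Real.log (Y' - 1 / 2 * p')) =
        (bb * Real.log 3) * L + 3 * (bb * (h * L)) + bb * L * Real.log (Y' - 1 / 2 * p') := by ring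
      _ = _ := by rw [b3]
  have h9 : bb * (h * L) ≤ 1 / 2 * (h * L) := mul_le_mul_of_nonneg_right b2 (by positivity)
  linarith

theorem Bd4_H {h L p Y p' Y' U : ℝ} (hh0 : 0 < h) (hh1 : h ≤ 1 / 100) (hL : 0 < L) (hp' : 0 < p')
    (h5p : 5 * p' ≤ p + 2 * U + 6 * Real.log 2)
    (hYp : (1 - h) * p ≤ Y) (hY : Y - (p + p') / 2 - U ≤ Y')
    (hU : 5 * U + 6 ≤ h * p) (hU0 : 0 ≤ U) :
    Bd4 h L p' Y' ≤ Bd4 h L p Y * Real.exp (-((1 / 2 - 7 * h) * L)) := by
  obtain ⟨b1, b2, b3, b4, b5⟩ := bb_facts
  unfold Bd4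
  rw [← Real.exp_add]
  apply Real.exp_le_exp.mpr
  have hlog2' := Real.log_two_lt_d9
  have hp : 0 < p := by
    by_contra hcon
    push Not at hcon
    have : h * p ≤ 0 := mul_nonpos_of_nonneg_of_nonpos hh0.le hcon
    linarith
  have hp5 : p' * 5 ≤ (1 + h) * p := by linarith
  have h1 : Real.log p' + Real.log 5 ≤ h + Real.log p := by
    have e1 : p' * 5 ≤ Real.exp h * p := by
      refine hp5.trans ?_
      apply mul_le_mul_of_nonneg_right _ hp.le
      have := Real.add_one_le_exp h
      linarith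
    have e2 := Real.log_le_log (by positivity) e1
    rwa [Real.log_mul hp'.ne' (by norm_num), Real.log_mul (Real.exp_pos _).ne' hp.ne',
      Real.log_exp] at e2
  have h20 : (1 / 2 - h) * p ≤ Y - 1 / 2 * p := by linarith
  have h2 : 0 < Y - 1 / 2 * p := lt_of_lt_of_le (mul_pos (by linarith) hp) h20
  have h3 : (3 / 5 - 2 * h) * (Y - 1 / 2 * p) ≤ Y' - 1 / 2 * p' := by
    have e2 : (2 / 5 + 2 * h) * ((1 / 2 - h) * p) ≤ (2 / 5 + 2 * h) * (Y - 1 / 2 * p) :=
      mul_le_mul_of_nonneg_left h20 (by linarith)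
    have e3 : 0 ≤ (h / 5 - 2 * h ^ 2) * p := mul_nonneg (by nlinarith) hp.le
    nlinarith
  have h30 : 0 < Y' - 1 / 2 * p' := lt_of_lt_of_le (mul_pos (by linarith) h2) h3
  have h4 : Y - 1 / 2 * p ≤ 5 / 3 * Real.exp (5 * h) * (Y' - 1 / 2 * p') := by
    have e1 : 1 + 5 * h ≤ Real.exp (5 * h) := by
      have := Real.add_one_le_exp (5 * h)
      linarith
    have e2 : 5 / 3 * (1 + 5 * h) * ((3 / 5 - 2 * h) * (Y - 1 / 2 * p)) ≤
        5 / 3 * Real.exp (5 * h) * (Y' - 1 / 2 * p') := by
      apply mul_le_mul _ h3 (mul_pos (by linarith) h2).le (by positivity)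
      linarith
    have e3 : 1 * (Y - 1 / 2 * p) ≤ (5 / 3 * (1 + 5 * h) * (3 / 5 - 2 * h)) * (Y - 1 / 2 * p) := by
      apply mul_le_mul_of_nonneg_right _ h2.le
      nlinarith
    calc Y - 1 / 2 * p = 1 * (Y - 1 / 2 * p) := (one_mul _).symm
      _ ≤ (5 / 3 * (1 + 5 * h) * (3 / 5 - 2 * h)) * (Y - 1 / 2 * p) := e3
      _ = 5 / 3 * (1 + 5 * h) * ((3 / 5 - 2 * h) * (Y - 1 / 2 * p)) := by ring
      _ ≤ _ := e2
  have h5 : Real.log (Y - 1 / 2 * p) ≤
      Real.log 5 - Real.log 3 + 5 * h + Real.log (Y' - 1 / 2 * p') := by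
    have := Real.log_le_log h2 h4
    rwa [Real.log_mul (by positivity) h30.ne', Real.log_mul (by norm_num) (Real.exp_pos _).ne',
      Real.log_exp, Real.log_div (by norm_num) (by norm_num)] at this
  have h6 : (bb - 2 * h) * L * Real.log p' ≤
      (bb - 2 * h) * L * (h + Real.log p - Real.log 5) :=
    mul_le_mul_of_nonneg_left (by linarith) (mul_nonneg (by linarith) hL.le)
  have h7 : bb * L * Real.log (Y - 1 / 2 * p) ≤
      bb * L * (Real.log 5 - Real.log 3 + 5 * h + Real.log (Y' - 1 / 2 * p')) :=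
    mul_le_mul_of_nonneg_left h5 (mul_nonneg (by linarith) hL.le)
  have h8 : (bb - 2 * h) * L * (h + Real.log p - Real.log 5) +
      bb * L * (Real.log 5 - Real.log 3 + 5 * h + Real.log (Y' - 1 / 2 * p')) =
      (bb - 2 * h) * L * Real.log p + bb * L * Real.log (Y' - 1 / 2 * p') - 1 / 2 * L +
        2 * (h * L * Real.log 5) + (6 * (bb * (h * L)) - 2 * h ^ 2 * L) := by
    calc (bb - 2 * h) * L * (h + Real.log p - Real.log 5) +
      bb * L * (Real.log 5 - Real.log 3 + 5 * h + Real.log (Y' - 1 / 2 * p')) =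
      (bb - 2 * h) * L * Real.log p + bb * L * Real.log (Y' - 1 / 2 * p') -
        (bb * Real.log 3) * L +
        2 * (h * L * Real.log 5) + (6 * (bb * (h * L)) - 2 * h ^ 2 * L) := by ring
      _ = _ := by rw [b3]
  have h9 : bb * (h * L) ≤ 1 / 2 * (h * L) := mul_le_mul_of_nonneg_right b2 (by positivity)
  have h10 : h * L * Real.log 5 ≤ h * L * 2 := mul_le_mul_of_nonneg_left b4 (by positivity)
  have h11 : 0 ≤ 2 * h ^ 2 * L := by positivity
  linarith

/-- lower bound for the majorant -/
theorem Bd4_lower {h L p Y t : ℝ} (hh0 : 0 < h) (hh1 : h ≤ 1 / 100) (hL : 1 ≤ L)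
    (hp : Real.exp ((1 - h) * L) ≤ p) (hYp : (1 - h) * p ≤ Y) (ht : Real.log Y ≤ t) :
    Real.exp (bb * L * (5 * Real.log L + (1 - h) * L - t)) ≤ Bd4 h L p Y := by
  obtain ⟨b1, b2, b3, b4, b5⟩ := bb_facts
  unfold Bd4
  apply Real.exp_le_exp.mpr
  have hp0 : 0 < p := lt_of_lt_of_le (Real.exp_pos _) hp
  have h1 : (1 - h) * L ≤ Real.log p := by rwa [Real.le_log_iff_exp_le hp0]
  have hhp : h * p ≤ 1 / 100 * p := mul_le_mul_of_nonneg_right hh1 hp0.le
  have h2 : Real.log (Y - 1 / 2 * p) ≤ Real.log Y :=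
    Real.log_le_log (by linarith) (by linarith)
  have h3 : 0 ≤ (bb - 2 * h) * L * (Real.log p - (1 - h) * L) := by
    apply mul_nonneg (mul_nonneg (by linarith) (by linarith)) (by linarith)
  have h4 : bb * L * Real.log (Y - 1 / 2 * p) ≤ bb * L * t :=
    mul_le_mul_of_nonneg_left (by linarith) (mul_nonneg (by linarith) (by linarith))
  linarith

theorem pot4 (h : ℝ) (hh0 : 0 < h) (hh1 : h ≤ 1 / 100) : ∃ L0 : ℝ, 1 ≤ L0 ∧
    ∀ L : ℝ, L0 ≤ L → ∀ (k : ℕ) (R R0 W : ℝ) (St : ℕ → ℕ → Prop), Fam2 k R R0 W St →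
    R ≤ Real.exp ((1 - 18 * h) * L) → R0 ≤ Real.exp (2 * L) →
    2 * W ≤ Real.exp (Real.exp ((1 - h) * L)) →
    ∀ n : ℕ, ∀ y P : ℝ, 0 < y → y ≤ 2 ^ n →
    Real.exp (Real.exp ((1 - h) * L)) ≤ P → Real.log P ≤ 2 * Real.exp L →
    (1 - h) * Real.log P ≤ Real.log y → Fn St y P ≤ Bd4 h L (Real.log P) (Real.log y) := by
  obtain ⟨b1, b2, b3, b4, b5⟩ := bb_facts
  obtain ⟨L1, hL1, hstep⟩ := step4 h hh0 hh1
  obtain ⟨Ct, hCt, htriv⟩ := Fn_triv
  obtain ⟨Cs, hCs, hsmooth⟩ := Fn_smooth
  obtain ⟨La, hLa, ha⟩ := ev_polyd (1 / 10) (32 * Ct * Cs) (by norm_num) 0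
  obtain ⟨Lb, hLb, hb⟩ := ev_polyd h 4 hh0 0
  obtain ⟨Lc, hLc, hc⟩ := ev_polyd (9 / 100) 28 (by norm_num) 2
  obtain ⟨Ld, hLd, hd⟩ := ev_polyd (9 / 10) (1200 / h) (by norm_num) 2
  refine ⟨max (max L1 La) (max (max Lb Lc) (max Ld (112 * Real.exp 40))),
    le_trans hL1 (le_trans (le_max_left _ _) (le_max_left _ _)), ?_⟩
  intro L hL k R R0 W St hF hRL hR0L hWL
  simp only [max_le_iff] at hL
  obtain ⟨⟨hLL1, hLLa⟩, ⟨hLLb, hLLc⟩, hLLd, hL28⟩ := hL
  replace ha := ha L hLLa
  replace hb := hb L hLLb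
  replace hc := hc L hLLc
  replace hd := hd L hLLd
  rw [pow_zero, mul_one] at ha hb
  have hexp40 : (4096 : ℝ) ≤ Real.exp 40 := by
    have h6 := Real.exp_one_gt_d9
    have h7 : Real.exp 12 = Real.exp 1 ^ 12 := by rw [← Real.exp_nat_mul]; norm_num
    have h8 : (4096 : ℝ) ≤ Real.exp 12 := by
      rw [h7]
      calc (4096 : ℝ) = 2 ^ 12 := by norm_num
        _ ≤ _ := pow_le_pow_left₀ (by norm_num) (by linarith) 12
    exact h8.trans (Real.exp_le_exp.mpr (by norm_num))
  have hL800 : 4000 ≤ L := by linarith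
  have hLpos : 0 < L := by linarith
  have hL1' : 1 ≤ L := by linarith
  have hR := hF.one
  have hRR := hF.le
  have hWW := hF.large
  have hR0 : 1 ≤ R0 := by linarith
  have hlogL0 : 0 ≤ Real.log L := Real.log_nonneg hL1'
  have hlogL28 : Real.log 112 + 40 ≤ Real.log L := by
    have h1 := Real.log_le_log (by positivity) hL28
    rwa [Real.log_mul (by norm_num) (Real.exp_pos _).ne', Real.log_exp] at h1
  have hLsq : 1 ≤ L ^ 2 := one_le_pow₀ hL1'
  have hLL : 4000 * L ≤ L ^ 2 := by rw [pow_two]; exact mul_le_mul_of_nonneg_right hL800 hLpos.le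
  have hCtCs : 1 ≤ Ct * Cs := one_le_mul_of_one_le_of_one_le hCt hCs
  have hhL0 : 0 < h * L := by positivity
  have hhL : h * L ≤ 1 / 100 * L := mul_le_mul_of_nonneg_right hh1 hLpos.le
  have hbL0 : 0 < bb * L := mul_pos (by linarith) hLpos
  have hbL : bb * L ≤ 1 / 2 * L := mul_le_mul_of_nonneg_right b2 hLpos.le
  have hbL4 : 1 / 4 * L ≤ bb * L := mul_le_mul_of_nonneg_right b1 hLpos.le
  -- the range of `p'`
  have hv : ∀ p p' : ℝ, Real.exp ((1 - h) * L) ≤ p → p / (4 * (L + 20) * L) ≤ p' →
      Real.exp (9 / 10 * L) ≤ p' ∧ 1200 * L ^ 2 ≤ h * p' ∧ p ≤ 28 * L ^ 2 * p' := by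
    intro p p' hp hp'
    have h0 : 0 < 4 * (L + 20) * L := by positivity
    have h1 : 4 * (L + 20) * L ≤ 28 * L ^ 2 := by
      have : 4 * (L + 20) * L = 4 * L ^ 2 + 80 * L := by ring
      linarith
    have hp'0 : 0 < p' := by
      refine lt_of_lt_of_le ?_ hp'
      have := Real.exp_pos ((1 - h) * L)
      exact div_pos (by linarith) h0
    rw [div_le_iff₀ h0] at hp'
    have h2 : p ≤ 28 * L ^ 2 * p' := by
      calc p ≤ p' * (4 * (L + 20) * L) := hp'
        _ ≤ p' * (28 * L ^ 2) := mul_le_mul_of_nonneg_left h1 hp'0.le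
        _ = _ := by ring
    have h3 : 0 < 28 * L ^ 2 := by positivity
    have h4 : Real.exp (9 / 10 * L) ≤ p' := by
      have h5 : 28 * L ^ 2 * Real.exp (9 / 10 * L) ≤ 28 * L ^ 2 * p' := by
        calc 28 * L ^ 2 * Real.exp (9 / 10 * L) ≤ Real.exp (9 / 100 * L) * Real.exp (9 / 10 * L) :=
              mul_le_mul_of_nonneg_right hc (Real.exp_pos _).le
          _ = Real.exp (99 / 100 * L) := by rw [← Real.exp_add]; congr 1; ring
          _ ≤ Real.exp ((1 - h) * L) := Real.exp_le_exp.mpr (by linarith)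
          _ ≤ p := hp
          _ ≤ _ := h2
      exact le_of_mul_le_mul_left h5 h3
    refine ⟨h4, ?_, h2⟩
    have h6 : 1200 / h * L ^ 2 ≤ p' := hd.trans h4
    have h7 : h * (1200 / h * L ^ 2) ≤ h * p' := mul_le_mul_of_nonneg_left h6 hh0.le
    have h8 : h * (1200 / h * L ^ 2) = 1200 * L ^ 2 := by field_simp
    linarith
  have hUb : 5 * ((L + 20) * L) + 6 ≤ 1200 * L ^ 2 := by
    have : 5 * ((L + 20) * L) = 5 * L ^ 2 + 100 * L := by ring
    linarith
  have hU0 : 0 ≤ (L + 20) * L := by positivity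
  -- `R0` is small against `exp p'`
  have hRp : ∀ p' : ℝ, Real.exp (9 / 10 * L) ≤ p' → 1200 * L ^ 2 ≤ h * p' →
      32 * R0 ≤ Real.exp p' ∧ Ct * R0 ≤ Real.exp p' ∧ Cs * R0 ≤ Real.exp p' ∧
        Real.log (16 * R0) ≤ h * p' := by
    intro p' hp' hhp'
    have hp'0 : 0 < p' := lt_of_lt_of_le (Real.exp_pos _) hp'
    have h1 : 32 * Ct * Cs * R0 ≤ Real.exp (21 / 10 * L) := by
      calc 32 * Ct * Cs * R0 ≤ Real.exp (1 / 10 * L) * Real.exp (2 * L) :=
            mul_le_mul ha hR0L (by linarith) (Real.exp_pos _).le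
        _ = _ := by rw [← Real.exp_add]; congr 1; ring
    have h2 : Real.exp (21 / 10 * L) ≤ Real.exp p' := by
      apply Real.exp_le_exp.mpr
      have h3 : 1200 * L ^ 2 ≤ 1 / 100 * p' := hhp'.trans
        (mul_le_mul_of_nonneg_right hh1 hp'0.le)
      linarith
    have h3 : 32 * Ct * Cs * R0 ≤ Real.exp p' := h1.trans h2
    have e1 : Ct * R0 * 1 ≤ Ct * R0 * Cs := mul_le_mul_of_nonneg_left hCs (by positivity)
    have e2 : Cs * R0 * 1 ≤ Cs * R0 * Ct := mul_le_mul_of_nonneg_left hCt (by positivity)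
    have e3 : 1 * R0 ≤ (Ct * Cs) * R0 := mul_le_mul_of_nonneg_right hCtCs (by linarith)
    have e4 : 0 ≤ Ct * Cs * R0 := by positivity
    refine ⟨by linarith, by linarith, by linarith, ?_⟩
    have h4 : Real.log (16 * R0) ≤ 3 + 2 * L := by
      rw [Real.log_mul (by norm_num) (by linarith)]
      have h5 : Real.log R0 ≤ 2 * L := by
        rw [Real.log_le_iff_le_exp (by linarith)]; exact hR0L
      have h6 : Real.log 16 ≤ 3 := by
        rw [Real.log_le_iff_le_exp (by norm_num)]
        have h7 : Real.exp 3 = Real.exp 1 ^ 3 := by rw [← Real.exp_nat_mul]; norm_num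
        rw [h7]
        have h8 := Real.exp_one_gt_d9
        have h9 : (2.7 : ℝ) ^ 3 ≤ Real.exp 1 ^ 3 := pow_le_pow_left₀ (by norm_num) (by linarith) 3
        norm_num at h9 ⊢
        linarith
      linarith
    linarith
  intro n
  induction n with
  | zero =>
    intro y P hy hyn hP hPu hYp
    exfalso
    rw [pow_zero] at hyn
    have h1 : Real.log y ≤ 0 := Real.log_nonpos hy.le hyn
    have h2 : Real.exp ((1 - h) * L) ≤ Real.log P := by
      rwa [Real.le_log_iff_exp_le (lt_of_lt_of_le (Real.exp_pos _) hP)]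
    have h3 := Real.exp_pos ((1 - h) * L)
    have h4 : 0 < (1 - h) * Real.log P := mul_pos (by linarith) (by linarith)
    linarith
  | succ n ih =>
    intro y P hy hyn hP hPu hYp
    have hP0 : 0 < P := lt_of_lt_of_le (Real.exp_pos _) hP
    have hp34 : Real.exp ((1 - h) * L) ≤ Real.log P := by rwa [Real.le_log_iff_exp_le hP0]
    set p := Real.log P with hp
    have hPp : Real.exp p = P := Real.exp_log hP0
    set Y := Real.log y with hY
    have hp0 : 0 < p := lt_of_lt_of_le (Real.exp_pos _) hp34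
    have hhp : h * p ≤ 1 / 100 * p := mul_le_mul_of_nonneg_right hh1 hp0.le
    have hY99 : 99 / 100 * p ≤ Y := by linarith
    have hY0 : 0 < Y := by linarith
    have hlogp : Real.log p ≤ L + 1 := by
      have h1 := Real.log_le_log hp0 hPu
      rw [Real.log_mul (by norm_num) (Real.exp_pos _).ne', Real.log_exp] at h1
      linarith [Real.log_two_lt_d9]
    obtain ⟨hv1, hv2, _⟩ := hv p p hp34 (by
      apply div_le_self hp0.le
      nlinarith only [hL1', hLpos])
    rcases le_or_gt (4 * L ^ 2 * p) Y with hsm | hsm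
    · -- smooth case
      have h1 := hsmooth k R0 St hF.fam y P hy (by
        have := (hRp p hv1 hv2).2.2.1
        rwa [hPp] at this)
      refine le_trans h1 ?_
      set u := Y / p with hu
      have hup : u * p = Y := by rw [hu]; field_simp
      have huL : 4 * L ^ 2 ≤ u := by rwa [hu, le_div_iff₀ hp0]
      have hu0 : 0 < u := by
        have e9 : 0 < 4 * L ^ 2 := by positivity
        linarith
      set s := Real.sqrt u with hs
      have hss : s ^ 2 = u := Real.sq_sqrt hu0.le
      have hsL : 2 * L ≤ s := by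
        rw [hs]; apply Real.le_sqrt_of_sq_le
        calc (2 * L) ^ 2 = 4 * L ^ 2 := by ring
          _ ≤ u := huL
      have hs0 : 0 < s := by linarith
      have hlogu : Real.log u ≤ 2 * s := by
        rw [← hss, Real.log_pow]
        push_cast
        have := Real.log_le_sub_one_of_pos hs0
        linarith
      have hlogY : Real.log Y ≤ 2 * s + L + 1 := by
        rw [← hup, Real.log_mul hu0.ne' hp0.ne']
        linarith
      have h2 := Bd4_lower hh0 hh1 hL1' hp34 hYp hlogY
      refine le_trans ?_ h2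
      have hR2 : R0 ^ 2 ≤ Real.exp (4 * L) := by
        have h := pow_le_pow_left₀ (by linarith) hR0L 2
        rw [← Real.exp_nat_mul] at h
        refine h.trans (le_of_eq ?_)
        congr 1; push_cast; ring
      have hCs1 : Cs ≤ Real.exp (1 / 10 * L) := by
        refine le_trans ?_ ha
        have e1 : Cs * 1 ≤ Cs * Ct := mul_le_mul_of_nonneg_left hCt (by linarith)
        have e2 : 0 ≤ Cs * Ct := by positivity
        linarith
      have h3 : Cs * R0 ^ 2 ≤ Real.exp (5 * L) := by
        calc Cs * R0 ^ 2 ≤ Real.exp (1 / 10 * L) * Real.exp (4 * L) :=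
              mul_le_mul hCs1 hR2 (by positivity) (Real.exp_pos _).le
          _ = Real.exp (41 / 10 * L) := by rw [← Real.exp_add]; congr 1; ring
          _ ≤ _ := Real.exp_le_exp.mpr (by linarith)
      have h4 : p ≤ Real.exp (L + 1) := by
        rwa [← Real.log_le_iff_le_exp hp0]
      calc Cs * R0 ^ 2 * p * Real.exp (-u) ≤ Real.exp (5 * L) * Real.exp (L + 1) * Real.exp (-u) := by
            apply mul_le_mul_of_nonneg_right _ (Real.exp_pos _).le
            exact mul_le_mul h3 h4 hp0.le (Real.exp_pos _).le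
        _ = Real.exp (6 * L + 1 - u) := by
            rw [← Real.exp_add, ← Real.exp_add]; congr 1; ring
        _ ≤ _ := by
            apply Real.exp_le_exp.mpr
            have h5 : 2 * L * s ≤ u := by
              rw [← hss, pow_two]; exact mul_le_mul_of_nonneg_right hsL hs0.le
            have h7 : 0 ≤ bb * L * Real.log L := mul_nonneg hbL0.le hlogL0
            have h9 : 0 ≤ L * s := by positivity
            have h10 : bb * L * (5 * Real.log L + (1 - h) * L - (2 * s + L + 1)) =
              5 * (bb * L * Real.log L) - bb * L * (h * L) - 2 * (bb * L * s) - bb * L := by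
              ring
            have h11 : bb * L * (h * L) ≤ 1 / 2 * L * (1 / 100 * L) :=
              mul_le_mul hbL hhL hhL0.le (by positivity)
            have h12 : 1 / 2 * L * (1 / 100 * L) = 1 / 200 * L ^ 2 := by ring
            have h13 : bb * L * s ≤ 1 / 2 * L * s := mul_le_mul_of_nonneg_right hbL hs0.le
            rw [h10]
            linarith
    · -- the step
      set b := Bd4 h L p Y with hb'
      have hb0 : 0 < b := Bd4_pos _ _ _ _
      have hlogY : Real.log Y ≤ Real.log 4 + 2 * Real.log L + Real.log p := by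
        have h1 := Real.log_le_log hY0 hsm.le
        rw [Real.log_mul (by positivity) hp0.ne', Real.log_mul (by norm_num) (by positivity),
          Real.log_pow] at h1
        push_cast at h1
        exact h1
      have hlog4 : Real.log 4 ≤ 2 := by
        rw [show (4 : ℝ) = 2 ^ 2 by norm_num, Real.log_pow]
        push_cast
        linarith [Real.log_two_lt_d9]
      set β1 := b * Real.exp (-((1 / 2 - 8 * h) * L)) / 4 with hβ1def
      set β0 := b * Real.exp ((1 / 2 + 7 * h) * L) / 4 with hβ0def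
      have hβ1pos : 0 < β1 := by positivity
      have hβ0pos : 0 < β0 := by positivity
      have hβ1 : b * Real.exp (-((1 / 2 - 7 * h) * L)) ≤ β1 := by
        rw [hβ1def, le_div_iff₀ (by norm_num), mul_assoc]
        apply mul_le_mul_of_nonneg_left _ hb0.le
        calc Real.exp (-((1 / 2 - 7 * h) * L)) * 4 ≤
              Real.exp (-((1 / 2 - 7 * h) * L)) * Real.exp (h * L) :=
              mul_le_mul_of_nonneg_left hb (Real.exp_pos _).le
          _ = Real.exp (-((1 / 2 - 8 * h) * L)) := by rw [← Real.exp_add]; congr 1; ring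
      have hβ10 : β1 ≤ β0 := by
        rw [hβ1def, hβ0def]
        apply div_le_div_of_nonneg_right _ (by norm_num)
        apply mul_le_mul_of_nonneg_left _ hb0.le
        apply Real.exp_le_exp.mpr
        linarith
      have hβ0 : b * Real.exp ((1 / 2 + 3 / 2 * h) * L) ≤ β0 := by
        rw [hβ0def, le_div_iff₀ (by norm_num), mul_assoc]
        apply mul_le_mul_of_nonneg_left _ hb0.le
        calc Real.exp ((1 / 2 + 3 / 2 * h) * L) * 4 ≤
              Real.exp ((1 / 2 + 3 / 2 * h) * L) * Real.exp (h * L) :=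
              mul_le_mul_of_nonneg_left hb (Real.exp_pos _).le
          _ = Real.exp ((1 / 2 + 5 / 2 * h) * L) := by rw [← Real.exp_add]; congr 1; ring
          _ ≤ Real.exp ((1 / 2 + 7 * h) * L) := Real.exp_le_exp.mpr (by linarith)
      -- zero
      have hzero : ∀ y' P' : ℝ, 0 < y' → 0 < P' → p / (4 * (L + 20) * L) ≤ Real.log P' →
          Real.log y' < (1 - h) * Real.log P' → Fn St y' P' = 0 := by
        intro y' P' hy' hP' hvp' hlt
        obtain ⟨w1, w2, w3⟩ := hv p _ hp34 hvp'
        obtain ⟨r1, r2, r3, r4⟩ := hRp _ w1 w2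
        rw [Real.exp_log hP'] at r1 r2 r3
        apply Fn_zero hF.fam r1
        have h2 : Real.log y' ≤ Real.log (P' / (16 * R0)) := by
          rw [Real.log_div hP'.ne' (by positivity)]
          linarith
        exact (Real.log_le_log_iff hy' (by positivity)).mp h2
      -- trivial bound below the range
      have hsmall : ∀ y' P' : ℝ, 0 < y' → 0 < P' → p / (4 * (L + 20) * L) ≤ Real.log P' →
          Real.log P' < Real.exp ((1 - h) * L) → Fn St y' P' ≤ β1 := by
        intro y' P' hy' hP' hvp' hlt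
        obtain ⟨w1, w2, w3⟩ := hv p _ hp34 hvp'
        obtain ⟨r1, r2, r3, r4⟩ := hRp _ w1 w2
        rw [Real.exp_log hP'] at r1 r2 r3
        refine le_trans (htriv k R0 St hF.fam y' P' hy' r2) ?_
        have h1 : Ct * R0 ^ 2 ≤ Real.exp (5 * L) := by
          have hR2 : R0 ^ 2 ≤ Real.exp (4 * L) := by
            have h := pow_le_pow_left₀ (by linarith) hR0L 2
            rw [← Real.exp_nat_mul] at h
            refine h.trans (le_of_eq ?_)
            congr 1; push_cast; ring
          have hCt1 : Ct ≤ Real.exp (1 / 10 * L) := by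
            refine le_trans ?_ ha
            have e1 : Ct * 1 ≤ Ct * Cs := mul_le_mul_of_nonneg_left hCs (by linarith)
            have e2 : 0 ≤ Ct * Cs := by positivity
            linarith
          calc Ct * R0 ^ 2 ≤ Real.exp (1 / 10 * L) * Real.exp (4 * L) :=
                mul_le_mul hCt1 hR2 (by positivity) (Real.exp_pos _).le
            _ = Real.exp (41 / 10 * L) := by rw [← Real.exp_add]; congr 1; ring
            _ ≤ _ := Real.exp_le_exp.mpr (by linarith)
        have h2 : p ≤ 28 * L ^ 2 * Real.exp ((1 - h) * L) :=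
          le_trans w3 (mul_le_mul_of_nonneg_left hlt.le (by positivity))
        have h3 : Real.log p ≤ Real.log 28 + 2 * Real.log L + (1 - h) * L := by
          have h4 := Real.log_le_log hp0 h2
          rw [Real.log_mul (by positivity) (Real.exp_pos _).ne', Real.log_exp,
            Real.log_mul (by norm_num) (by positivity), Real.log_pow] at h4
          push_cast at h4
          exact h4
        have h112 : Real.log 4 + Real.log 28 = Real.log 112 := by
          rw [← Real.log_mul (by norm_num) (by norm_num)]; norm_num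
        have h5 := Bd4_lower (t := Real.log 112 + 4 * Real.log L + (1 - h) * L) hh0 hh1 hL1' hp34
          hYp (by linarith)
        have h6 : Real.exp (10 * L) ≤ b := by
          refine le_trans ?_ h5
          apply Real.exp_le_exp.mpr
          have e1 : 40 ≤ 5 * Real.log L + (1 - h) * L -
              (Real.log 112 + 4 * Real.log L + (1 - h) * L) := by linarith
          have e2 : 1 / 4 * L * 40 ≤ bb * L * (5 * Real.log L + (1 - h) * L -
              (Real.log 112 + 4 * Real.log L + (1 - h) * L)) :=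
            mul_le_mul hbL4 e1 (by norm_num) hbL0.le
          linarith
        rw [hβ1def, le_div_iff₀ (by norm_num)]
        calc Ct * R0 ^ 2 * 4 ≤ Real.exp (5 * L) * Real.exp (h * L) :=
              mul_le_mul h1 hb (by norm_num) (Real.exp_pos _).le
          _ = Real.exp (5 * L + h * L) := by rw [← Real.exp_add]
          _ ≤ Real.exp (10 * L + -((1 / 2 - 8 * h) * L)) := Real.exp_le_exp.mpr (by linarith)
          _ = Real.exp (10 * L) * Real.exp (-((1 / 2 - 8 * h) * L)) := Real.exp_add _ _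
          _ ≤ b * Real.exp (-((1 / 2 - 8 * h) * L)) :=
              mul_le_mul_of_nonneg_right h6 (Real.exp_pos _).le
      have hmain := hstep L hLL1 k R R0 W St hF hRL hR0L hWL y P β0 β1 hP hPu hβ0pos.le
        hβ1pos.le hy (by linarith)
        (by
          intro y' P' hy' hP' hyy hvp' hPP hp4 hlow
          obtain ⟨w1, w2, w3⟩ := hv p _ hp34 hvp'
          rcases lt_or_ge (Real.log y') ((1 - h) * Real.log P') with hz | hz
          · rw [hzero y' P' hy' hP' hvp' hz]; exact hβ0pos.le
          rcases lt_or_ge (Real.log P') (Real.exp ((1 - h) * L)) with hs | hs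
          · exact le_trans (hsmall y' P' hy' hP' hvp' hs) hβ10
          · have hPe : Real.exp (Real.exp ((1 - h) * L)) ≤ P' := by
              rwa [← Real.le_log_iff_exp_le hP']
            have hp'0 : 0 < Real.log P' := lt_of_lt_of_le (Real.exp_pos _) hs
            have hpp : Real.log P' ≤ p := Real.log_le_log hP' hPP
            have h1 := ih y' P' hy' (by rw [pow_succ] at hyn; linarith) hPe (by linarith) hz
            exact le_trans h1 (le_trans (Bd4_E hh0 hh1 hLpos hp'0 hpp hYp hlow hz
              (by linarith)) hβ0))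
        (by
          intro y' P' hy' hP' hyy hvp' hPP h5p hlow
          obtain ⟨w1, w2, w3⟩ := hv p _ hp34 hvp'
          rcases lt_or_ge (Real.log y') ((1 - h) * Real.log P') with hz | hz
          · rw [hzero y' P' hy' hP' hvp' hz]; exact hβ1pos.le
          rcases lt_or_ge (Real.log P') (Real.exp ((1 - h) * L)) with hs | hs
          · exact hsmall y' P' hy' hP' hvp' hs
          · have hPe : Real.exp (Real.exp ((1 - h) * L)) ≤ P' := by
              rwa [← Real.le_log_iff_exp_le hP']
            have hp'0 : 0 < Real.log P' := lt_of_lt_of_le (Real.exp_pos _) hs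
            have hpp : Real.log P' ≤ p := Real.log_le_log hP' hPP
            have h1 := ih y' P' hy' (by rw [pow_succ] at hyn; linarith) hPe (by linarith) hz
            exact le_trans h1 (le_trans (Bd4_H hh0 hh1 hLpos hp'0 h5p hYp hlow (by linarith) hU0)
              hβ1))
      refine le_trans hmain ?_
      have e1 : Real.exp ((1 / 2 - 8 * h) * L) * (Real.exp (-((1 - h) * L)) * β0 + β1) = b / 2 := by
        have h1 : Real.exp ((1 / 2 - 8 * h) * L) * Real.exp (-((1 - h) * L)) *
            Real.exp ((1 / 2 + 7 * h) * L) = 1 := by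
          rw [← Real.exp_add, ← Real.exp_add, ← Real.exp_zero]; congr 1; ring
        have h2 : Real.exp ((1 / 2 - 8 * h) * L) * Real.exp (-((1 / 2 - 8 * h) * L)) = 1 := by
          rw [← Real.exp_add, ← Real.exp_zero]; congr 1; ring
        rw [hβ0def, hβ1def]
        calc Real.exp ((1 / 2 - 8 * h) * L) * (Real.exp (-((1 - h) * L)) *
              (b * Real.exp ((1 / 2 + 7 * h) * L) / 4) +
                b * Real.exp (-((1 / 2 - 8 * h) * L)) / 4) =
            (Real.exp ((1 / 2 - 8 * h) * L) * Real.exp (-((1 - h) * L)) *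
                Real.exp ((1 / 2 + 7 * h) * L) +
              Real.exp ((1 / 2 - 8 * h) * L) * Real.exp (-((1 / 2 - 8 * h) * L))) * (b / 4) := by
                ring
          _ = b / 2 := by rw [h1, h2]; ring
      rw [e1]
      have e2 : Real.exp (-L * L) ≤ b / 2 := by
        have h1 := Bd4_lower (t := Real.log 4 + 2 * Real.log L + (L + 1)) hh0 hh1 hL1' hp34 hYp
          (by linarith)
        have h2 : Real.exp (-L * L) * 2 ≤ b := by
          refine le_trans ?_ h1
          have h3 : (2 : ℝ) ≤ Real.exp 1 := by linarith [Real.exp_one_gt_d9]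
          calc Real.exp (-L * L) * 2 ≤ Real.exp (-L * L) * Real.exp 1 :=
                mul_le_mul_of_nonneg_left h3 (Real.exp_pos _).le
            _ = Real.exp (-L * L + 1) := by rw [← Real.exp_add]
            _ ≤ _ := by
                apply Real.exp_le_exp.mpr
                have h7 : 0 ≤ bb * L * Real.log L := mul_nonneg hbL0.le hlogL0
                have h10 : bb * L * (5 * Real.log L + (1 - h) * L -
                    (Real.log 4 + 2 * Real.log L + (L + 1))) =
                  3 * (bb * L * Real.log L) - bb * L * (h * L) - bb * L * (Real.log 4 + 1) := by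
                  ring
                have h11 : bb * L * (h * L) ≤ 1 / 2 * L * (1 / 100 * L) :=
                  mul_le_mul hbL hhL hhL0.le (by positivity)
                have h12 : 1 / 2 * L * (1 / 100 * L) = 1 / 200 * L ^ 2 := by ring
                have h13 : bb * L * (Real.log 4 + 1) ≤ 1 / 2 * L * 3 := by
                  apply mul_le_mul hbL (by linarith) _ (by positivity)
                  have : 0 ≤ Real.log 4 := Real.log_nonneg (by norm_num)
                  linarith
                have h14 : -L * L = -L ^ 2 := by ring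
                rw [h10, h14]
                linarith
        linarith
      linarith

end Pool.Agent.H96.LT
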